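import Pool.Agent.Helper15.DW.Defs

/-!
# Packet DW6: the contraction fields and the self-map property
-/

set_option autoImplicit false
open Filter Topology

namespace Pool.Agent.DW

lemma field_core (y z H : ℂ) :
    (2 * y ^ 2 * z - 2 * H * y ^ 2 * z ^ 2).re + 4 * y.im * (y * z).im - 2 * (y * z).im ^ 2
      = ((1 - 2 * H) * (y ^ 2 * z ^ 2)).re + ‖y‖ ^ 2 * (2 * z.re - ‖z‖ ^ 2) := by
  rw [← Complex.normSq_eq_norm_sq, ← Complex.normSq_eq_norm_sq, Complex.normSq_apply,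
    Complex.normSq_apply]
  simp [pow_two]
  ring

lemma field_TT_re {x : Fin 2 → Fin 2 → ℂ} (hx : x ∈ Om) :
    ‖x 0 1‖ ^ 2 + ‖x 1 1‖ ^ 2 < (TT x).re := by
  have h0 : 2 * (x 0 1).im ^ 2 < (x 0 0).re := hx 0
  have h1 : 2 * (x 1 1).im ^ 2 < (x 1 0).re := hx 1
  have e : (TT x).re = (x 0 0).re + (x 1 0).re + ((x 0 1).re ^ 2 - (x 0 1).im ^ 2)
      + ((x 1 1).re ^ 2 - (x 1 1).im ^ 2) := by
    unfold TT
    simp [pow_two]
  rw [e, ← Complex.normSq_eq_norm_sq, ← Complex.normSq_eq_norm_sq, Complex.normSq_apply,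
    Complex.normSq_apply]
  nlinarith

lemma field_D_re {L : ℝ} (hL : 0 < L) {x : Fin 2 → Fin 2 → ℂ} (hx : x ∈ Om) :
    1 + (‖x 0 1‖ ^ 2 + ‖x 1 1‖ ^ 2) / L < (1 + TT x / (L : ℂ)).re := by
  have h := field_TT_re hx
  rw [Complex.add_re, Complex.one_re, Complex.div_ofReal_re]
  have : (‖x 0 1‖ ^ 2 + ‖x 1 1‖ ^ 2) / L < (TT x).re / L := div_lt_div_of_pos_right h hL
  linarith

lemma field_D_norm {L : ℝ} (hL : 0 < L) {x : Fin 2 → Fin 2 → ℂ} (hx : x ∈ Om) :
    1 ≤ ‖1 + TT x / (L : ℂ)‖ := by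
  have h := field_D_re hL hx
  have h2 : 0 ≤ (‖x 0 1‖ ^ 2 + ‖x 1 1‖ ^ 2) / L := by positivity
  have h3 := Complex.re_le_norm (1 + TT x / (L : ℂ))
  linarith

theorem field_ineq (L S : ℝ) (hL : 0 < L) (x : Fin 2 → Fin 2 → ℂ) (hx : x ∈ Om) (i : Fin 2)
    (hne : x i 1 ≠ (S : ℂ)) :
    0 < (ga L S i x).re + 4 * (x i 1).im * (al L S i x).im - 2 * (al L S i x).im ^ 2 := by
  set D : ℂ := 1 + TT x / (L : ℂ) with hD
  set y : ℂ := x i 1 - (S : ℂ) with hy
  have hy0 : y ≠ 0 := sub_ne_zero.mpr hne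
  have hDre := field_D_re hL hx
  have hDn := field_D_norm hL hx
  rw [← hD] at hDre hDn
  have hD0 : D ≠ 0 := by
    intro h; rw [h, norm_zero] at hDn; linarith
  have hLc : (L : ℂ) ≠ 0 := by exact_mod_cast hL.ne'
  set z : ℂ := D⁻¹ with hz
  set H : ℂ := 1 + (x 0 1 ^ 2 + x 1 1 ^ 2) / (L : ℂ) with hH
  have hal : al L S i x = y * z := by
    unfold al
    rw [hz, div_eq_mul_inv]
  have hga : ga L S i x = 2 * y ^ 2 * z - 2 * H * y ^ 2 * z ^ 2 := by
    have hu : x 0 0 + x 1 0 = (L : ℂ) * (D - H) := by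
      rw [hD, hH]
      unfold TT
      field_simp
      ring
    unfold ga
    rw [← hy, ← hD, hu, hz]
    field_simp
  have him : (x i 1).im = y.im := by
    rw [hy]; simp
  rw [hga, hal, him, field_core]
  have hn : 0 < ‖y‖ := norm_pos_iff.mpr hy0
  have hzre : z.re = D.re / ‖D‖ ^ 2 := by
    rw [hz, Complex.inv_re, Complex.normSq_eq_norm_sq]
  have hzn : ‖z‖ = ‖D‖⁻¹ := by rw [hz, norm_inv]
  have h1 : -(‖(1 : ℂ) - 2 * H‖ * (‖y‖ ^ 2 * ‖z‖ ^ 2)) ≤ ((1 - 2 * H) * (y ^ 2 * z ^ 2)).re := by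
    have h2 := Complex.abs_re_le_norm ((1 - 2 * H) * (y ^ 2 * z ^ 2))
    rw [norm_mul, norm_mul, norm_pow, norm_pow] at h2
    linarith [neg_abs_le ((1 - 2 * H) * (y ^ 2 * z ^ 2)).re]
  have h3 : ‖(1 : ℂ) - 2 * H‖ ≤ 1 + 2 * ((‖x 0 1‖ ^ 2 + ‖x 1 1‖ ^ 2) / L) := by
    have e : (1 : ℂ) - 2 * H = -(1 + 2 * ((x 0 1 ^ 2 + x 1 1 ^ 2) / (L : ℂ))) := by
      rw [hH]; ring
    rw [e, norm_neg]
    refine (norm_add_le _ _).trans ?_
    rw [norm_one, norm_mul, norm_div, Complex.norm_real, Real.norm_eq_abs, abs_of_pos hL]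
    have h4 : ‖x 0 1 ^ 2 + x 1 1 ^ 2‖ ≤ ‖x 0 1‖ ^ 2 + ‖x 1 1‖ ^ 2 := by
      refine (norm_add_le _ _).trans ?_
      rw [norm_pow, norm_pow]
    have h5 : ‖x 0 1 ^ 2 + x 1 1 ^ 2‖ / L ≤ (‖x 0 1‖ ^ 2 + ‖x 1 1‖ ^ 2) / L :=
      div_le_div_of_nonneg_right h4 hL.le
    have h6 : ‖(2 : ℂ)‖ = 2 := by simp
    rw [h6]
    linarith
  have h7 : ‖(1 : ℂ) - 2 * H‖ < 2 * D.re - 1 := by linarith
  have hDpos : 0 < ‖D‖ := by linarith
  have h8 : 2 * z.re - ‖z‖ ^ 2 = (2 * D.re - 1) * ‖z‖ ^ 2 := by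
    rw [hzre, hzn]
    field_simp
  rw [h8]
  have hzpos : 0 < ‖z‖ := by rw [hzn]; positivity
  have h9 : 0 < ‖y‖ ^ 2 * ‖z‖ ^ 2 := by positivity
  have h10 : 0 < (2 * D.re - 1 - ‖(1 : ℂ) - 2 * H‖) * (‖y‖ ^ 2 * ‖z‖ ^ 2) :=
    mul_pos (by linarith) h9
  nlinarith

lemma field_nonneg (L S : ℝ) (hL : 0 < L) (x : Fin 2 → Fin 2 → ℂ) (hx : x ∈ Om) (i : Fin 2) :
    0 ≤ (ga L S i x).re + 4 * (x i 1).im * (al L S i x).im - 2 * (al L S i x).im ^ 2 := by
  by_cases h : x i 1 = (S : ℂ)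
  · have h1 : al L S i x = 0 := by unfold al; rw [h]; simp
    have h2 : ga L S i x = 0 := by unfold ga; rw [h]; simp
    rw [h1, h2]; simp
  · exact (field_ineq L S hL x hx i h).le

lemma field_al_norm {L S : ℝ} (hL : 0 < L) {x : Fin 2 → Fin 2 → ℂ} (hx : x ∈ Om) (i : Fin 2) :
    ‖al L S i x‖ ≤ ‖x i 1‖ + |S| := by
  unfold al
  rw [norm_div]
  have h1 := field_D_norm hL hx
  have h2 : ‖x i 1 - (S : ℂ)‖ ≤ ‖x i 1‖ + |S| := by
    refine (norm_sub_le _ _).trans ?_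
    rw [Complex.norm_real, Real.norm_eq_abs]
  calc ‖x i 1 - (S : ℂ)‖ / ‖1 + TT x / (L : ℂ)‖ ≤ ‖x i 1 - (S : ℂ)‖ / 1 :=
        div_le_div_of_nonneg_left (norm_nonneg _) one_pos h1
    _ ≤ ‖x i 1‖ + |S| := by rw [div_one]; exact h2

lemma field_ga_norm {L S : ℝ} (hL : 0 < L) {x : Fin 2 → Fin 2 → ℂ} (hx : x ∈ Om) (i : Fin 2) :
    ‖ga L S i x‖ ≤ 4 * ‖x 0 0 + x 1 0‖ * (‖x i 1‖ ^ 2 + S ^ 2) / L := by
  unfold ga
  have h1 := field_D_norm hL hx
  have h2 : ‖x i 1 - (S : ℂ)‖ ≤ ‖x i 1‖ + |S| := by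
    refine (norm_sub_le _ _).trans ?_
    rw [Complex.norm_real, Real.norm_eq_abs]
  have h3 : ‖x i 1 - (S : ℂ)‖ ^ 2 ≤ 2 * (‖x i 1‖ ^ 2 + S ^ 2) := by
    have h4 := pow_le_pow_left₀ (norm_nonneg _) h2 2
    have h5 : |S| ^ 2 = S ^ 2 := sq_abs S
    nlinarith [sq_nonneg (‖x i 1‖ - |S|)]
  rw [norm_div, norm_mul, norm_mul, norm_mul, norm_pow, norm_pow, Complex.norm_real,
    Real.norm_eq_abs, abs_of_pos hL]
  have h6 : ‖(2 : ℂ)‖ = 2 := by simp
  rw [h6]
  have h7 : L * 1 ≤ L * ‖1 + TT x / (L : ℂ)‖ ^ 2 :=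
    mul_le_mul_of_nonneg_left (one_le_pow₀ h1) hL.le
  calc 2 * ‖x 0 0 + x 1 0‖ * ‖x i 1 - (S : ℂ)‖ ^ 2 / (L * ‖1 + TT x / (L : ℂ)‖ ^ 2)
      ≤ 2 * ‖x 0 0 + x 1 0‖ * ‖x i 1 - (S : ℂ)‖ ^ 2 / (L * 1) :=
        div_le_div_of_nonneg_left (by positivity) (by linarith) h7
    _ ≤ 2 * ‖x 0 0 + x 1 0‖ * (2 * (‖x i 1‖ ^ 2 + S ^ 2)) / (L * 1) := by
        apply div_le_div_of_nonneg_right _ (by linarith)
        exact mul_le_mul_of_nonneg_left h3 (by positivity)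
    _ = 4 * ‖x 0 0 + x 1 0‖ * (‖x i 1‖ ^ 2 + S ^ 2) / L := by rw [mul_one]; ring

/-- The key inequality: the defining function strictly increases. -/
lemma field_increase (d L S : ℕ → ℝ) (hd : ∀ j, 0 < d j) (hL : ∀ j, 0 < L j) (hds : Summable d)
    (hd1 : ∑' j, d j ≤ 1) (hdS : Summable fun j => d j * |S j|)
    (hdL : Summable fun j => d j / L j)
    (hdSL2 : Summable fun j => d j * S j ^ 2 / L j)
    (x : Fin 2 → Fin 2 → ℂ) (hx : x ∈ Om) (i : Fin 2)
    (hex : ∃ j, par j = i ∧ x i 1 ≠ (S j : ℂ)) :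
    (x i 0).re - 2 * (x i 1).im ^ 2
      < (GG d L S x i 0).re - 2 * (GG d L S x i 1).im ^ 2 := by
  classical
  -- the two series
  set A : ℕ → ℂ := fun j => if par j = i then (d j : ℂ) * al (L j) (S j) i x else 0 with hA
  set C : ℕ → ℂ := fun j => if par j = i then (d j : ℂ) * ga (L j) (S j) i x else 0 with hC
  have hAs : Summable A := by
    apply Summable.of_norm_bounded (g := fun j => d j * ‖x i 1‖ + d j * |S j|)
      ((hds.mul_right _).add hdS)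
    intro j
    rw [hA]
    by_cases h : par j = i
    · simp only [h, if_true]
      rw [norm_mul, Complex.norm_real, Real.norm_eq_abs, abs_of_pos (hd j), ← mul_add]
      exact mul_le_mul_of_nonneg_left (field_al_norm (hL j) hx i) (hd j).le
    · simp only [h, if_false, norm_zero]
      have := hd j
      positivity
  have hCs : Summable C := by
    have hs : Summable fun j => 4 * ‖x 0 0 + x 1 0‖ * (‖x i 1‖ ^ 2 * (d j / L j)
        + d j * S j ^ 2 / L j) := ((hdL.mul_left _).add hdSL2).mul_left _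
    apply Summable.of_norm_bounded hs
    intro j
    have hLj := hL j
    have hdj := hd j
    rw [hC]
    by_cases h : par j = i
    · simp only [h, if_true]
      rw [norm_mul, Complex.norm_real, Real.norm_eq_abs, abs_of_pos (hd j)]
      have := mul_le_mul_of_nonneg_left (field_ga_norm (S := S j) (hL j) hx i) (hd j).le
      refine this.trans (le_of_eq ?_)
      field_simp
    · simp only [h, if_false, norm_zero]
      positivity
  have hg0 : (GG d L S x i 0) = x i 0 + ∑' j, C j := rfl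
  have hg1 : (GG d L S x i 1) = x i 1 - ∑' j, A j := rfl
  set β : ℕ → ℝ := fun j => (al (L j) (S j) i x).im with hβ
  set γ : ℕ → ℝ := fun j => (ga (L j) (S j) i x).re with hγ
  set δ : ℕ → ℝ := fun j => if par j = i then d j else 0 with hδ
  have hδ0 : ∀ j, 0 ≤ δ j := by
    intro j; rw [hδ]; by_cases h : par j = i
    · simp only [h, if_true]; exact (hd j).le
    · simp only [h, if_false]; exact le_rfl
  have hδle : ∀ j, δ j ≤ d j := by
    intro j; rw [hδ]; by_cases h : par j = i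
    · simp only [h, if_true]; exact le_rfl
    · simp only [h, if_false]; exact (hd j).le
  have hδs : Summable δ := Summable.of_nonneg_of_le hδ0 hδle hds
  have hδ1 : ∑' j, δ j ≤ 1 := (hδs.tsum_le_tsum hδle hds).trans hd1
  have hAim : ∀ j, (A j).im = δ j * β j := by
    intro j; rw [hA, hδ, hβ]; by_cases h : par j = i
    · simp only [h, if_true, Complex.im_ofReal_mul]
    · simp only [h, if_false, Complex.zero_im, zero_mul]
  have hCre : ∀ j, (C j).re = δ j * γ j := by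
    intro j; rw [hC, hδ, hγ]; by_cases h : par j = i
    · simp only [h, if_true, Complex.re_ofReal_mul]
    · simp only [h, if_false, Complex.zero_re, zero_mul]
  have hBsum : HasSum (fun j => δ j * β j) (∑' j, A j).im := by
    have := Complex.hasSum_im hAs.hasSum
    simpa only [hAim] using this
  have hCsum : HasSum (fun j => δ j * γ j) (∑' j, C j).re := by
    have := Complex.hasSum_re hCs.hasSum
    simpa only [hCre] using this
  set B : ℝ := (∑' j, A j).im with hB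
  set v : ℝ := (x i 1).im with hv
  have hPnn : ∀ j, 0 ≤ γ j + 4 * v * β j - 2 * β j ^ 2 := fun j =>
    field_nonneg (L j) (S j) (hL j) x hx i
  have hsum1 : HasSum (fun j => δ j * γ j + 4 * v * (δ j * β j)) ((∑' j, C j).re + 4 * v * B) :=
    hCsum.add (hBsum.mul_left _)
  have hβ2s : Summable fun j => δ j * β j ^ 2 := by
    apply Summable.of_nonneg_of_le (fun j => mul_nonneg (hδ0 j) (sq_nonneg _)) _
      (hsum1.summable.mul_left (1 / 2))
    intro j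
    have := mul_nonneg (hδ0 j) (hPnn j)
    nlinarith
  have hqs : HasSum (fun j => δ j * (γ j + 4 * v * β j - 2 * β j ^ 2))
      ((∑' j, C j).re + 4 * v * B - 2 * ∑' j, δ j * β j ^ 2) := by
    have := hsum1.sub (hβ2s.hasSum.mul_left 2)
    refine this.congr_fun ?_ |> fun h => h
    intro j
    ring
  have hqpos : 0 < (∑' j, C j).re + 4 * v * B - 2 * ∑' j, δ j * β j ^ 2 := by
    obtain ⟨j0, hj0, hne⟩ := hex
    rw [← hqs.tsum_eq]
    apply hqs.summable.tsum_pos (fun j => mul_nonneg (hδ0 j) (hPnn j)) j0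
    have h1 : δ j0 = d j0 := by rw [hδ]; simp only [hj0, if_true]
    rw [h1]
    exact mul_pos (hd j0) (field_ineq (L j0) (S j0) (hL j0) x hx i hne)
  have hCS : B ^ 2 ≤ ∑' j, δ j * β j ^ 2 := by
    have h1 : HasSum (fun j => δ j * (β j - B) ^ 2)
        (∑' j, δ j * β j ^ 2 - 2 * B * B + B ^ 2 * ∑' j, δ j) := by
      have := (hβ2s.hasSum.sub (hBsum.mul_left (2 * B))).add (hδs.hasSum.mul_left (B ^ 2))
      refine this.congr_fun ?_ |> fun h => h
      intro j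
      ring
    have h2 : 0 ≤ ∑' j, δ j * β j ^ 2 - 2 * B * B + B ^ 2 * ∑' j, δ j := by
      rw [← h1.tsum_eq]
      exact tsum_nonneg (fun j => mul_nonneg (hδ0 j) (sq_nonneg _))
    nlinarith [sq_nonneg B]
  rw [hg0, hg1, Complex.add_re, Complex.sub_im, ← hB]
  nlinarith

theorem GG_props (d L S : ℕ → ℝ) (hd : ∀ j, 0 < d j) (hL : ∀ j, 0 < L j) (hds : Summable d)
    (hd1 : ∑' j, d j ≤ 1) (hdS : Summable fun j => d j * |S j|)
    (hdL : Summable fun j => d j / L j) (hdSL : Summable fun j => d j * |S j| / L j)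
    (hdSL2 : Summable fun j => d j * S j ^ 2 / L j)
    (h02 : S 0 ≠ S 2) (h13 : S 1 ≠ S 3) :
    Set.MapsTo (GG d L S) Om Om ∧ ∀ x ∈ Om, GG d L S x ≠ x := by
  have key : ∀ x ∈ Om, ∀ i : Fin 2, (x i 0).re - 2 * (x i 1).im ^ 2
      < (GG d L S x i 0).re - 2 * (GG d L S x i 1).im ^ 2 := by
    intro x hx i
    apply field_increase d L S hd hL hds hd1 hdS hdL hdSL2 x hx i
    fin_cases i
    · by_cases h : x 0 1 = (S 0 : ℂ)
      · refine ⟨2, rfl, ?_⟩
        intro h'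
        apply h02
        have : (S 0 : ℂ) = (S 2 : ℂ) := by rw [← h]; exact h'
        exact_mod_cast this
      · exact ⟨0, rfl, h⟩
    · by_cases h : x 1 1 = (S 1 : ℂ)
      · refine ⟨3, rfl, ?_⟩
        intro h'
        apply h13
        have : (S 1 : ℂ) = (S 3 : ℂ) := by rw [← h]; exact h'
        exact_mod_cast this
      · exact ⟨1, rfl, h⟩
  constructor
  · intro x hx i
    have h1 := key x hx i
    have h2 : 2 * (x i 1).im ^ 2 < (x i 0).re := hx i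
    linarith
  · intro x hx heq
    have h1 := key x hx 0
    rw [heq] at h1
    exact lt_irrefl _ h1

end Pool.Agent.DW
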