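import Mathlib

/-!
# Definitions for the counterexample to MP_a7f513_an (frozen statement S05734)

Part A: the unit ball of a complex inner product space.
Part B: the Siegel model of `B × B` and the sum of contraction fields.
Part C: the explicit parameters and the real dynamics.
-/

set_option autoImplicit false
open Filter Topology

namespace Pool.Agent.DW

/-! ## Part A -/
section Ball

variable {E : Type*} [NormedAddCommGroup E] [InnerProductSpace ℂ E]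

/-- `|1 - ⟨z,w⟩|² / ((1-|z|²)(1-|w|²))` (this is `cosh²` of half the Bergman distance). -/
noncomputable def Del (z w : E) : ℝ :=
  ‖(1 : ℂ) - inner ℂ w z‖ ^ 2 / ((1 - ‖z‖ ^ 2) * (1 - ‖w‖ ^ 2))

/-- the (half) Bergman distance of the unit ball -/
noncomputable def dB (z w : E) : ℝ := Real.arcosh (Real.sqrt (Del z w))

/-- the involutive automorphism of the ball exchanging `0` and `a` -/
noncomputable def mob (a z : E) : E :=
  ((1 : ℂ) - inner ℂ a z)⁻¹ •
    (a - ((Real.sqrt (1 - ‖a‖ ^ 2) : ℝ) : ℂ) • z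
      - (inner ℂ a z / (1 + ((Real.sqrt (1 - ‖a‖ ^ 2) : ℝ) : ℂ))) • a)

end Ball

/-- the euclidean unit ball of `ℂ²`, as a subset of `Fin 2 → ℂ` -/
def D0 : Set (Fin 2 → ℂ) := {z | ‖z 0‖ ^ 2 + ‖z 1‖ ^ 2 < 1}

/-! ## Part B -/

/-- the coordinate on which the `j`-th field acts -/
def par (j : ℕ) : Fin 2 := ⟨j % 2, Nat.mod_lt _ (by norm_num)⟩

/-- the Siegel model of `B × B`: `x i 0 = u_i`, `x i 1 = w_i`, `Re u_i > 2 (Im w_i)²` -/
def Om : Set (Fin 2 → Fin 2 → ℂ) := {x | ∀ i, 2 * (x i 1).im ^ 2 < (x i 0).re}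

/-- `T = u₀ + u₁ + w₀² + w₁²` -/
noncomputable def TT (x : Fin 2 → Fin 2 → ℂ) : ℂ := x 0 0 + x 1 0 + x 0 1 ^ 2 + x 1 1 ^ 2

/-- `w`-component (up to sign) of the unit rate contraction field with scale `L`, station `S` -/
noncomputable def al (L S : ℝ) (i : Fin 2) (x : Fin 2 → Fin 2 → ℂ) : ℂ :=
  (x i 1 - (S : ℂ)) / (1 + TT x / (L : ℂ))

/-- `u`-component of the unit rate contraction field with scale `L`, station `S` -/
noncomputable def ga (L S : ℝ) (i : Fin 2) (x : Fin 2 → Fin 2 → ℂ) : ℂ :=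
  2 * (x 0 0 + x 1 0) * (x i 1 - (S : ℂ)) ^ 2 / ((L : ℂ) * (1 + TT x / (L : ℂ)) ^ 2)

/-- the self-map of the Siegel model -/
noncomputable def GG (d L S : ℕ → ℝ) (x : Fin 2 → Fin 2 → ℂ) : Fin 2 → Fin 2 → ℂ :=
  fun i => ![x i 0 + ∑' j : ℕ, (if par j = i then (d j : ℂ) * ga (L j) (S j) i x else 0),
             x i 1 - ∑' j : ℕ, (if par j = i then (d j : ℂ) * al (L j) (S j) i x else 0)]

/-! ## Part C -/

/-- `V_j = 2^(20·2^j)` -/
noncomputable def Vv (j : ℕ) : ℝ := (2 : ℝ) ^ (20 * 2 ^ j)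

/-- signs `+,+,-,-,+,+,…` -/
noncomputable def sg (j : ℕ) : ℝ := (-1 : ℝ) ^ (j / 2)

/-- rates -/
noncomputable def dl (j : ℕ) : ℝ := 1 / Vv j ^ 17

/-- scales -/
noncomputable def LL (j : ℕ) : ℝ := Vv j ^ 36

/-- stations -/
noncomputable def SS (j : ℕ) : ℝ := sg j * Vv j ^ 16

/-- `M = m + W₀² + W₁²` -/
noncomputable def MM (m : ℝ) (W : Fin 2 → ℝ) : ℝ := m + W 0 ^ 2 + W 1 ^ 2

/-- drift of the `j`-th field on a real point -/
noncomputable def dr (j : ℕ) (m : ℝ) (W : Fin 2 → ℝ) : ℝ :=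
  dl j * (LL j / (LL j + MM m W)) * (SS j - W (par j))

/-- relative growth of `m` due to the `j`-th field on a real point -/
noncomputable def en (j : ℕ) (m : ℝ) (W : Fin 2 → ℝ) : ℝ :=
  2 * dl j * LL j * (W (par j) - SS j) ^ 2 / (LL j + MM m W) ^ 2

/-- the real dynamics: `x.1 = μ₀ + μ₁`, `x.2 = (W₀, W₁)` -/
noncomputable def stepR (x : ℝ × (Fin 2 → ℝ)) : ℝ × (Fin 2 → ℝ) :=
  (x.1 * (1 + ∑' j : ℕ, en j x.1 x.2),
   fun i => x.2 i + ∑' j : ℕ, (if par j = i then dr j x.1 x.2 else 0))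

/-- initial point of the real dynamics -/
noncomputable def xR : ℝ × (Fin 2 → ℝ) := (2, ![SS 0, sg 1 * (Vv 0 ^ 18 / 2)])

end Pool.Agent.DW
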