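import Pool.Agent.Helper15.DW.Defs

set_option autoImplicit false
open Filter Topology

namespace Pool.Agent.DW

/-- the Cayley-type map from the ball to one factor of the Siegel model -/
noncomputable def conjPhi (z : Fin 2 → ℂ) : Fin 2 → ℂ :=
  ![(1 + z 0) / (1 - z 0) - (z 1 / (1 - z 0)) ^ 2, z 1 / (1 - z 0)]

/-- the inverse of `conjPhi` -/
noncomputable def conjPsi (y : Fin 2 → ℂ) : Fin 2 → ℂ :=
  ![(y 0 + y 1 ^ 2 - 1) / (y 0 + y 1 ^ 2 + 1), 2 * y 1 / (y 0 + y 1 ^ 2 + 1)]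

/-- one factor of the Siegel model -/
def conjU : Set (Fin 2 → ℂ) := {y | 2 * (y 1).im ^ 2 < (y 0).re}

theorem conj_zeta_re {y : Fin 2 → ℂ} (hy : y ∈ conjU) : 0 < (y 0 + y 1 ^ 2).re := by
  have h : 2 * (y 1).im ^ 2 < (y 0).re := hy
  have h2 : (y 0 + y 1 ^ 2).re = (y 0).re + ((y 1).re * (y 1).re - (y 1).im * (y 1).im) := by
    simp [pow_two, Complex.mul_re]
  rw [h2]
  nlinarith [sq_nonneg (y 1).re, sq_nonneg (y 1).im]

theorem conj_zeta_ne {y : Fin 2 → ℂ} (hy : y ∈ conjU) : y 0 + y 1 ^ 2 + 1 ≠ 0 := by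
  intro h
  have h1 := conj_zeta_re hy
  have h2 : (y 0 + y 1 ^ 2 + 1).re = 0 := by rw [h]; simp
  rw [Complex.add_re, Complex.one_re] at h2
  linarith

theorem conj_one_sub_ne {z : Fin 2 → ℂ} (hz : z ∈ D0) : 1 - z 0 ≠ 0 := by
  intro h
  have h1 : z 0 = 1 := (sub_eq_zero.mp h).symm
  have h2 : ‖z 0‖ ^ 2 + ‖z 1‖ ^ 2 < 1 := hz
  rw [h1] at h2
  simp at h2
  nlinarith [norm_nonneg (z 1)]

theorem conj_id (y : Fin 2 → ℂ) (hne : y 0 + y 1 ^ 2 + 1 ≠ 0) :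
    1 - ‖conjPsi y 0‖ ^ 2 - ‖conjPsi y 1‖ ^ 2
      = 4 * ((y 0).re - 2 * (y 1).im ^ 2) / ‖y 0 + y 1 ^ 2 + 1‖ ^ 2 := by
  have hN : ‖y 0 + y 1 ^ 2 + 1‖ ^ 2 ≠ 0 := pow_ne_zero _ (norm_ne_zero_iff.mpr hne)
  have e0 : conjPsi y 0 = (y 0 + y 1 ^ 2 - 1) / (y 0 + y 1 ^ 2 + 1) := rfl
  have e1 : conjPsi y 1 = 2 * y 1 / (y 0 + y 1 ^ 2 + 1) := rfl
  rw [e0, e1, norm_div, norm_div, div_pow, div_pow]
  have key : ‖y 0 + y 1 ^ 2 + 1‖ ^ 2 - ‖y 0 + y 1 ^ 2 - 1‖ ^ 2 - ‖2 * y 1‖ ^ 2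
      = 4 * ((y 0).re - 2 * (y 1).im ^ 2) := by
    rw [Complex.sq_norm, Complex.sq_norm, Complex.sq_norm, Complex.normSq_apply,
      Complex.normSq_apply, Complex.normSq_apply]
    simp [pow_two, Complex.mul_re, Complex.mul_im]
    ring
  rw [← key]
  field_simp

theorem conj_psi_mem {y : Fin 2 → ℂ} (hy : y ∈ conjU) : conjPsi y ∈ D0 := by
  have h1 := conj_id y (conj_zeta_ne hy)
  have h2 : 2 * (y 1).im ^ 2 < (y 0).re := hy
  have h3 : 0 < ‖y 0 + y 1 ^ 2 + 1‖ := norm_pos_iff.mpr (conj_zeta_ne hy)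
  have h4 : 0 < 4 * ((y 0).re - 2 * (y 1).im ^ 2) / ‖y 0 + y 1 ^ 2 + 1‖ ^ 2 := by
    apply div_pos
    · linarith
    · positivity
  show ‖conjPsi y 0‖ ^ 2 + ‖conjPsi y 1‖ ^ 2 < 1
  linarith

theorem conj_psi_phi {z : Fin 2 → ℂ} (hz : 1 - z 0 ≠ 0) : conjPsi (conjPhi z) = z := by
  have e0 : conjPhi z 0 = (1 + z 0) / (1 - z 0) - (z 1 / (1 - z 0)) ^ 2 := rfl
  have e1 : conjPhi z 1 = z 1 / (1 - z 0) := rfl
  have hs : conjPhi z 0 + conjPhi z 1 ^ 2 + 1 = 2 / (1 - z 0) := by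
    rw [e0, e1]
    field_simp
    ring
  have hd : conjPhi z 0 + conjPhi z 1 ^ 2 - 1 = 2 * z 0 / (1 - z 0) := by
    rw [e0, e1]
    field_simp
    ring
  funext i
  fin_cases i
  · show (conjPhi z 0 + conjPhi z 1 ^ 2 - 1) / (conjPhi z 0 + conjPhi z 1 ^ 2 + 1) = z 0
    rw [hs, hd]
    field_simp
  · show 2 * conjPhi z 1 / (conjPhi z 0 + conjPhi z 1 ^ 2 + 1) = z 1
    rw [hs, e1]
    field_simp

theorem conj_phi_psi {y : Fin 2 → ℂ} (hy : y 0 + y 1 ^ 2 + 1 ≠ 0) : conjPhi (conjPsi y) = y := by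
  have e0 : conjPsi y 0 = (y 0 + y 1 ^ 2 - 1) / (y 0 + y 1 ^ 2 + 1) := rfl
  have e1 : conjPsi y 1 = 2 * y 1 / (y 0 + y 1 ^ 2 + 1) := rfl
  have hs : 1 - conjPsi y 0 = 2 / (y 0 + y 1 ^ 2 + 1) := by
    rw [e0]
    field_simp
    ring
  have hd : 1 + conjPsi y 0 = 2 * (y 0 + y 1 ^ 2) / (y 0 + y 1 ^ 2 + 1) := by
    rw [e0]
    field_simp
    ring
  funext i
  fin_cases i
  · show (1 + conjPsi y 0) / (1 - conjPsi y 0) - (conjPsi y 1 / (1 - conjPsi y 0)) ^ 2 = y 0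
    rw [hs, hd, e1]
    field_simp
    ring
  · show conjPsi y 1 / (1 - conjPsi y 0) = y 1
    rw [hs, e1]
    field_simp

theorem conj_phi_mem {z : Fin 2 → ℂ} (hz : z ∈ D0) : conjPhi z ∈ conjU := by
  have hne := conj_one_sub_ne hz
  have e0 : conjPhi z 0 = (1 + z 0) / (1 - z 0) - (z 1 / (1 - z 0)) ^ 2 := rfl
  have e1 : conjPhi z 1 = z 1 / (1 - z 0) := rfl
  have hs : conjPhi z 0 + conjPhi z 1 ^ 2 + 1 = 2 / (1 - z 0) := by
    rw [e0, e1]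
    field_simp
    ring
  have hne2 : conjPhi z 0 + conjPhi z 1 ^ 2 + 1 ≠ 0 := by
    rw [hs]
    exact div_ne_zero two_ne_zero hne
  have h1 := conj_id (conjPhi z) hne2
  rw [conj_psi_phi hne] at h1
  have h2 : ‖z 0‖ ^ 2 + ‖z 1‖ ^ 2 < 1 := hz
  have h3 : 0 < ‖conjPhi z 0 + conjPhi z 1 ^ 2 + 1‖ ^ 2 := by
    have := norm_pos_iff.mpr hne2
    positivity
  have h4 : 0 < 4 * ((conjPhi z 0).re - 2 * (conjPhi z 1).im ^ 2) := by
    have h5 : 0 < 4 * ((conjPhi z 0).re - 2 * (conjPhi z 1).im ^ 2)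
        / ‖conjPhi z 0 + conjPhi z 1 ^ 2 + 1‖ ^ 2 := by
      rw [← h1]; linarith
    have h6 := mul_pos h5 h3
    rwa [div_mul_cancel₀ _ h3.ne'] at h6
  show 2 * (conjPhi z 1).im ^ 2 < (conjPhi z 0).re
  linarith

/-- product of the maps `conjPhi` -/
noncomputable def conjPhi2 (z : Fin 2 → Fin 2 → ℂ) : Fin 2 → Fin 2 → ℂ := fun i => conjPhi (z i)

/-- product of the maps `conjPsi` -/
noncomputable def conjPsi2 (y : Fin 2 → Fin 2 → ℂ) : Fin 2 → Fin 2 → ℂ := fun i => conjPsi (y i)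

theorem conj_phi2_mem {z : Fin 2 → Fin 2 → ℂ} (hz : z ∈ Set.univ.pi fun _ : Fin 2 => D0) :
    conjPhi2 z ∈ Om := fun i => conj_phi_mem (hz i (Set.mem_univ i))

theorem conj_psi2_mem {y : Fin 2 → Fin 2 → ℂ} (hy : y ∈ Om) :
    conjPsi2 y ∈ (Set.univ.pi fun _ : Fin 2 => D0) := fun i _ => conj_psi_mem (hy i)

theorem conj_div_diff {s : Set (Fin 2 → Fin 2 → ℂ)} {f g : (Fin 2 → Fin 2 → ℂ) → ℂ}
    (hf : DifferentiableOn ℂ f s) (hg : DifferentiableOn ℂ g s) (hne : ∀ x ∈ s, g x ≠ 0) :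
    DifferentiableOn ℂ (fun x => f x / g x) s := by
  simp only [div_eq_mul_inv]
  exact hf.fun_mul (hg.fun_inv hne)

theorem conj_phi2_diff : DifferentiableOn ℂ conjPhi2 (Set.univ.pi fun _ : Fin 2 => D0) := by
  rw [differentiableOn_pi]
  intro i
  rw [differentiableOn_pi]
  intro j
  have hc : ∀ a b : Fin 2, DifferentiableOn ℂ (fun z : Fin 2 → Fin 2 → ℂ => z a b)
      (Set.univ.pi fun _ : Fin 2 => D0) := by
    intro a b
    exact (differentiable_pi.mp ((differentiable_pi.mp differentiable_id) a) b).differentiableOn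
  have hne : ∀ z ∈ (Set.univ.pi fun _ : Fin 2 => D0 : Set (Fin 2 → Fin 2 → ℂ)), 1 - z i 0 ≠ 0 :=
    fun z hz => conj_one_sub_ne (hz i (Set.mem_univ i))
  have hden : DifferentiableOn ℂ (fun z : Fin 2 → Fin 2 → ℂ => 1 - z i 0)
      (Set.univ.pi fun _ : Fin 2 => D0) := (differentiableOn_const 1).sub (hc i 0)
  fin_cases j
  · show DifferentiableOn ℂ (fun z : Fin 2 → Fin 2 → ℂ =>
      (1 + z i 0) / (1 - z i 0) - (z i 1 / (1 - z i 0)) ^ 2) _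
    exact (conj_div_diff ((differentiableOn_const 1).add (hc i 0)) hden hne).sub
      ((conj_div_diff (hc i 1) hden hne).pow 2)
  · show DifferentiableOn ℂ (fun z : Fin 2 → Fin 2 → ℂ => z i 1 / (1 - z i 0)) _
    exact conj_div_diff (hc i 1) hden hne

theorem conj_psi2_diff : DifferentiableOn ℂ conjPsi2 Om := by
  rw [differentiableOn_pi]
  intro i
  rw [differentiableOn_pi]
  intro j
  have hc : ∀ a b : Fin 2, DifferentiableOn ℂ (fun z : Fin 2 → Fin 2 → ℂ => z a b) Om := by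
    intro a b
    exact (differentiable_pi.mp ((differentiable_pi.mp differentiable_id) a) b).differentiableOn
  have hne : ∀ z ∈ Om, z i 0 + z i 1 ^ 2 + 1 ≠ 0 := fun z hz => conj_zeta_ne (y := z i) (hz i)
  have hden : DifferentiableOn ℂ (fun z : Fin 2 → Fin 2 → ℂ => z i 0 + z i 1 ^ 2 + 1) Om :=
    ((hc i 0).add ((hc i 1).pow 2)).add (differentiableOn_const 1)
  fin_cases j
  · show DifferentiableOn ℂ (fun z : Fin 2 → Fin 2 → ℂ =>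
      (z i 0 + z i 1 ^ 2 - 1) / (z i 0 + z i 1 ^ 2 + 1)) _
    exact conj_div_diff (((hc i 0).add ((hc i 1).pow 2)).sub (differentiableOn_const 1)) hden hne
  · show DifferentiableOn ℂ (fun z : Fin 2 → Fin 2 → ℂ =>
      2 * z i 1 / (z i 0 + z i 1 ^ 2 + 1)) _
    exact conj_div_diff ((differentiableOn_const 2).mul (hc i 1)) hden hne

theorem conj_to_ball (G : (Fin 2 → Fin 2 → ℂ) → (Fin 2 → Fin 2 → ℂ))
    (hG : DifferentiableOn ℂ G Om) (hm : Set.MapsTo G Om Om) (hfix : ∀ x ∈ Om, G x ≠ x)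
    (x0 : Fin 2 → Fin 2 → ℂ) (hx0 : x0 ∈ Om) (C : ℝ)
    (hrec : ∀ i, ∃ᶠ m : ℕ in atTop,
      1 ≤ ((G^[m] x0) i 0).re - 2 * ((G^[m] x0) i 1).im ^ 2 ∧
      ‖(G^[m] x0) i 0‖ ≤ C ∧ ‖(G^[m] x0) i 1‖ ≤ C) :
    ∃ F : (Fin 2 → Fin 2 → ℂ) → (Fin 2 → Fin 2 → ℂ),
      DifferentiableOn ℂ F (Set.univ.pi fun _ => D0) ∧
      Set.MapsTo F (Set.univ.pi fun _ => D0) (Set.univ.pi fun _ => D0) ∧
      (∀ z ∈ (Set.univ.pi fun _ => D0 : Set (Fin 2 → Fin 2 → ℂ)), F z ≠ z) ∧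
      ∃ z0 ∈ (Set.univ.pi fun _ => D0 : Set (Fin 2 → Fin 2 → ℂ)), ∃ η > 0, ∀ i : Fin 2,
        ∃ᶠ m : ℕ in atTop, ‖(F^[m] z0) i 0‖ ^ 2 + ‖(F^[m] z0) i 1‖ ^ 2 ≤ 1 - η := by
  have hPP : ∀ y ∈ Om, conjPhi2 (conjPsi2 y) = y := by
    intro y hy
    funext i
    exact conj_phi_psi (conj_zeta_ne (y := y i) (hy i))
  have hQQ : ∀ z ∈ (Set.univ.pi fun _ => D0 : Set (Fin 2 → Fin 2 → ℂ)),
      conjPsi2 (conjPhi2 z) = z := by
    intro z hz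
    funext i
    exact conj_psi_phi (conj_one_sub_ne (hz i (Set.mem_univ i)))
  have hiter : ∀ m : ℕ, G^[m] x0 ∈ Om := by
    intro m
    induction m with
    | zero => exact hx0
    | succ m ih => rw [Function.iterate_succ_apply']; exact hm ih
  have hFiter : ∀ m : ℕ, (conjPsi2 ∘ G ∘ conjPhi2)^[m] (conjPsi2 x0) = conjPsi2 (G^[m] x0) := by
    intro m
    induction m with
    | zero => rfl
    | succ m ih =>
      rw [Function.iterate_succ_apply', ih, Function.iterate_succ_apply']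
      show conjPsi2 (G (conjPhi2 (conjPsi2 (G^[m] x0)))) = _
      rw [hPP _ (hiter m)]
  have hC : 0 ≤ C := by
    obtain ⟨m, hm1, hm2, hm3⟩ := (hrec 0).exists
    exact le_trans (norm_nonneg _) hm2
  refine ⟨conjPsi2 ∘ G ∘ conjPhi2, ?_, ?_, ?_, conjPsi2 x0, conj_psi2_mem hx0,
    4 / (C + C ^ 2 + 1) ^ 2, by positivity, ?_⟩
  · exact conj_psi2_diff.comp (hG.comp conj_phi2_diff fun z hz => conj_phi2_mem hz)
      fun z hz => hm (conj_phi2_mem hz)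
  · intro z hz
    exact conj_psi2_mem (hm (conj_phi2_mem hz))
  · intro z hz h
    apply hfix (conjPhi2 z) (conj_phi2_mem hz)
    have h1 : conjPsi2 (G (conjPhi2 z)) = z := h
    calc G (conjPhi2 z) = conjPhi2 (conjPsi2 (G (conjPhi2 z))) :=
          (hPP _ (hm (conj_phi2_mem hz))).symm
      _ = conjPhi2 z := by rw [h1]
  · intro i
    refine (hrec i).mono ?_
    rintro m ⟨h1, h2, h3⟩
    rw [hFiter m]
    set y : Fin 2 → ℂ := (G^[m] x0) i with hy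
    have hyU : y ∈ conjU := hiter m i
    show ‖conjPsi y 0‖ ^ 2 + ‖conjPsi y 1‖ ^ 2 ≤ 1 - 4 / (C + C ^ 2 + 1) ^ 2
    have hid := conj_id y (conj_zeta_ne hyU)
    have hn : ‖y 0 + y 1 ^ 2 + 1‖ ≤ C + C ^ 2 + 1 := by
      calc ‖y 0 + y 1 ^ 2 + 1‖ ≤ ‖y 0‖ + ‖y 1 ^ 2‖ + ‖(1 : ℂ)‖ := norm_add₃_le
        _ ≤ C + C ^ 2 + 1 := by
          rw [norm_pow, norm_one]
          have : ‖y 1‖ ^ 2 ≤ C ^ 2 := pow_le_pow_left₀ (norm_nonneg _) h3 2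
          linarith
    have hpos : 0 < ‖y 0 + y 1 ^ 2 + 1‖ := norm_pos_iff.mpr (conj_zeta_ne hyU)
    have hle : 4 / (C + C ^ 2 + 1) ^ 2
        ≤ 4 * ((y 0).re - 2 * (y 1).im ^ 2) / ‖y 0 + y 1 ^ 2 + 1‖ ^ 2 := by
      have hp : ‖y 0 + y 1 ^ 2 + 1‖ ^ 2 ≤ (C + C ^ 2 + 1) ^ 2 :=
        pow_le_pow_left₀ (norm_nonneg _) hn 2
      apply div_le_div₀
      · linarith
      · linarith
      · positivity
      · exact hp
    linarith

end Pool.Agent.DW
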