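import Pool.Agent.Helper15.DW.Defs

/-!
# Packet DW7: holomorphy of the self-map `GG` of the Siegel model
-/

set_option autoImplicit false
open Filter Topology

namespace Pool.Agent.DW

/-- an auxiliary sum -/
noncomputable def holoF (c L : ℕ → ℝ) (i : Fin 2) (p : ℕ) (T : ℂ) : ℂ :=
  ∑' j : ℕ, (if par j = i then (c j : ℂ) * ((1 + T / (L j : ℂ))⁻¹) ^ p else 0)

private lemma holo_norm_inv {L : ℝ} (hL : 0 < L) {T : ℂ} (hT : 0 < T.re) :
    1 + T / (L : ℂ) ≠ 0 ∧ ‖(1 + T / (L : ℂ))⁻¹‖ ≤ 1 := by
  have h1 : 1 ≤ (1 + T / (L : ℂ)).re := by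
    rw [Complex.add_re, Complex.one_re, Complex.div_ofReal_re]
    have : 0 ≤ T.re / L := by positivity
    linarith
  have h2 : 1 ≤ ‖1 + T / (L : ℂ)‖ := h1.trans ((le_abs_self _).trans (Complex.abs_re_le_norm _))
  refine ⟨?_, ?_⟩
  · intro h
    rw [h, norm_zero] at h2
    linarith
  · rw [norm_inv]
    exact inv_le_one_of_one_le₀ h2

private lemma holo_term_norm (c L : ℕ → ℝ) (hL : ∀ j, 0 < L j) (i : Fin 2) (p : ℕ) (j : ℕ)
    {T : ℂ} (hT : 0 < T.re) :
    ‖(if par j = i then (c j : ℂ) * ((1 + T / (L j : ℂ))⁻¹) ^ p else 0)‖ ≤ |c j| := by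
  split_ifs
  · rw [norm_mul, norm_pow, Complex.norm_real, Real.norm_eq_abs]
    exact mul_le_of_le_one_right (abs_nonneg _)
      (pow_le_one₀ (norm_nonneg _) (holo_norm_inv (hL j) hT).2)
  · rw [norm_zero]; exact abs_nonneg _

private lemma holo_summable (c L : ℕ → ℝ) (hL : ∀ j, 0 < L j) (hc : Summable fun j => |c j|)
    (i : Fin 2) (p : ℕ) {T : ℂ} (hT : 0 < T.re) :
    Summable fun j => (if par j = i then (c j : ℂ) * ((1 + T / (L j : ℂ))⁻¹) ^ p else 0) :=
  Summable.of_norm_bounded hc fun j => holo_term_norm c L hL i p j hT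

private lemma holo_diff (c L : ℕ → ℝ) (hL : ∀ j, 0 < L j) (hc : Summable fun j => |c j|)
    (i : Fin 2) (p : ℕ) : DifferentiableOn ℂ (holoF c L i p) {T : ℂ | 0 < T.re} := by
  unfold holoF
  apply Complex.differentiableOn_tsum_of_summable_norm hc
  · intro j
    by_cases h : par j = i
    · simp only [h, if_true]
      apply DifferentiableOn.const_mul
      apply DifferentiableOn.pow
      apply DifferentiableOn.inv
      · fun_prop
      · intro T hT
        exact (holo_norm_inv (hL j) hT).1
    · simp only [h, if_false]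
      exact differentiableOn_const _
  · exact isOpen_lt continuous_const Complex.continuous_re
  · intro j T hT
    exact holo_term_norm c L hL i p j hT

private lemma holo_TT_pos {x : Fin 2 → Fin 2 → ℂ} (hx : x ∈ Om) : 0 < (TT x).re := by
  have h0 := hx 0
  have h1 := hx 1
  have e : (TT x).re = (x 0 0).re + (x 1 0).re + ((x 0 1).re ^ 2 - (x 0 1).im ^ 2)
      + ((x 1 1).re ^ 2 - (x 1 1).im ^ 2) := by
    simp [TT, Complex.add_re, pow_two, Complex.mul_re]
  rw [e]
  nlinarith [sq_nonneg (x 0 1).re, sq_nonneg (x 1 1).re, sq_nonneg (x 0 1).im,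
    sq_nonneg (x 1 1).im]

theorem GG_diff (d L S : ℕ → ℝ) (hd : ∀ j, 0 < d j) (hL : ∀ j, 0 < L j) (hds : Summable d)
    (hdS : Summable fun j => d j * |S j|)
    (hdL : Summable fun j => d j / L j) (hdSL : Summable fun j => d j * |S j| / L j)
    (hdSL2 : Summable fun j => d j * S j ^ 2 / L j) :
    DifferentiableOn ℂ (GG d L S) Om := by
  have hA : Summable fun j => |d j| := by
    simpa only [abs_of_pos (hd _)] using hds
  have hB : Summable fun j => |d j * S j| := by
    simpa only [abs_mul, abs_of_pos (hd _)] using hdS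
  have hC : Summable fun j => |d j / L j| := by
    simpa only [abs_div, abs_of_pos (hd _), abs_of_pos (hL _)] using hdL
  have hD : Summable fun j => |d j * S j / L j| := by
    simpa only [abs_div, abs_mul, abs_of_pos (hd _), abs_of_pos (hL _)] using hdSL
  have hE : Summable fun j => |d j * S j ^ 2 / L j| := by
    simpa only [abs_div, abs_mul, abs_of_pos (hd _), abs_of_pos (hL _), abs_pow, sq_abs]
      using hdSL2
  have hmaps : Set.MapsTo TT Om {T : ℂ | 0 < T.re} := fun x hx => holo_TT_pos hx
  have hTT : DifferentiableOn ℂ TT Om := by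
    unfold TT
    fun_prop
  have hx01 : ∀ i k : Fin 2, DifferentiableOn ℂ (fun x : Fin 2 → Fin 2 → ℂ => x i k) Om := by
    intro i k
    fun_prop
  rw [differentiableOn_pi]
  intro i
  rw [differentiableOn_pi]
  intro k
  have comp : ∀ (c : ℕ → ℝ) (p : ℕ), (Summable fun j => |c j|) →
      DifferentiableOn ℂ (fun x => holoF c L i p (TT x)) Om := by
    intro c p hc
    exact (holo_diff c L hL hc i p).comp hTT hmaps
  fin_cases k
  · -- the `u`-component
    have key : ∀ x ∈ Om, GG d L S x i 0 = x i 0 + 2 * (x 0 0 + x 1 0) *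
        (x i 1 ^ 2 * holoF (fun j => d j / L j) L i 2 (TT x)
          - 2 * x i 1 * holoF (fun j => d j * S j / L j) L i 2 (TT x)
          + holoF (fun j => d j * S j ^ 2 / L j) L i 2 (TT x)) := by
      intro x hx
      have hT := holo_TT_pos hx
      have sC := holo_summable _ L hL hC i 2 hT
      have sD := holo_summable _ L hL hD i 2 hT
      have sE := holo_summable _ L hL hE i 2 hT
      have h1 : GG d L S x i 0 = x i 0 +
          ∑' j : ℕ, (if par j = i then (d j : ℂ) * ga (L j) (S j) i x else 0) := rfl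
      rw [h1]
      congr 1
      unfold holoF
      rw [← tsum_mul_left, ← tsum_mul_left,
        ← Summable.tsum_sub (sC.mul_left _) (sD.mul_left _),
        ← Summable.tsum_add ((sC.mul_left _).sub (sD.mul_left _)) sE, ← tsum_mul_left]
      congr 1
      funext j
      by_cases h : par j = i
      · simp only [h, if_true]
        unfold ga
        have hLj : (L j : ℂ) ≠ 0 := by exact_mod_cast (hL j).ne'
        have hne := (holo_norm_inv (hL j) hT).1
        push_cast
        field_simp
        ring
      · simp [h]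
    refine DifferentiableOn.congr ?_ key
    have := comp _ 2 hC
    have := comp _ 2 hD
    have := comp _ 2 hE
    have h00 := hx01 0 0
    have h10 := hx01 1 0
    have hi0 := hx01 i 0
    have hi1 := hx01 i 1
    fun_prop
  · have key : ∀ x ∈ Om, GG d L S x i 1 = x i 1 -
        (x i 1 * holoF d L i 1 (TT x) - holoF (fun j => d j * S j) L i 1 (TT x)) := by
      intro x hx
      have hT := holo_TT_pos hx
      have sA := holo_summable _ L hL hA i 1 hT
      have sB := holo_summable _ L hL hB i 1 hT
      have h1 : GG d L S x i 1 = x i 1 -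
          ∑' j : ℕ, (if par j = i then (d j : ℂ) * al (L j) (S j) i x else 0) := rfl
      rw [h1]
      congr 1
      unfold holoF
      rw [← tsum_mul_left, ← Summable.tsum_sub (sA.mul_left _) sB]
      congr 1
      funext j
      by_cases h : par j = i
      · simp only [h, if_true]
        unfold al
        have hLj : (L j : ℂ) ≠ 0 := by exact_mod_cast (hL j).ne'
        have hne := (holo_norm_inv (hL j) hT).1
        push_cast
        rw [pow_one, div_eq_mul_inv (x i 1 - (S j : ℂ))]
        ring
      · simp [h]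
    refine DifferentiableOn.congr ?_ key
    have := comp _ 1 hA
    have := comp _ 1 hB
    have hi1 := hx01 i 1
    fun_prop

end Pool.Agent.DW
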