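import Pool.Agent.Helper15.DW.Defs

/-!
# DW9: the real dynamics is the restriction of the complex map; parameters
-/

set_option autoImplicit false
open Filter Topology

namespace Pool.Agent.DW

lemma rl_Vv_pos (j : ℕ) : 0 < Vv j := by unfold Vv; positivity

lemma rl_Vv_ge (j : ℕ) : (2 : ℝ) ^ (j + 1) ≤ Vv j := by
  unfold Vv
  apply pow_le_pow_right₀ (by norm_num)
  have : j + 1 ≤ 2 ^ j := Nat.lt_two_pow_self
  omega

lemma rl_one_le_Vv (j : ℕ) : 1 ≤ Vv j :=
  le_trans (one_le_pow₀ (by norm_num)) (rl_Vv_ge j)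

lemma rl_inv_Vv_le (j : ℕ) : 1 / Vv j ≤ (1 / 2 : ℝ) ^ (j + 1) := by
  rw [div_pow, one_pow]
  exact one_div_le_one_div_of_le (by positivity) (rl_Vv_ge j)

lemma rl_inv_pow_le (k : ℕ) (hk : k ≠ 0) (j : ℕ) : 1 / Vv j ^ k ≤ (1 / 2 : ℝ) ^ (j + 1) := by
  refine le_trans ?_ (rl_inv_Vv_le j)
  apply one_div_le_one_div_of_le (rl_Vv_pos j)
  exact le_self_pow₀ (rl_one_le_Vv j) hk

lemma rl_summ_geo : Summable fun j : ℕ => (1 / 2 : ℝ) ^ (j + 1) :=
  (summable_nat_add_iff 1).2 (summable_geometric_of_lt_one (by norm_num) (by norm_num))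

lemma rl_summ (k : ℕ) (hk : k ≠ 0) : Summable fun j : ℕ => 1 / Vv j ^ k :=
  Summable.of_nonneg_of_le (fun j => by have := rl_Vv_pos j; positivity) (rl_inv_pow_le k hk)
    rl_summ_geo

lemma rl_sg_abs (j : ℕ) : |sg j| = 1 := by
  unfold sg; simp

lemma rl_SS_abs (j : ℕ) : |SS j| = Vv j ^ 16 := by
  unfold SS
  rw [abs_mul, rl_sg_abs, one_mul, abs_of_pos (pow_pos (rl_Vv_pos j) 16)]

theorem params_ok : (∀ j, 0 < dl j) ∧ (∀ j, 0 < LL j) ∧ Summable dl ∧ ∑' j, dl j ≤ 1 ∧
    (Summable fun j => dl j * |SS j|) ∧ (Summable fun j => dl j / LL j) ∧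
    (Summable fun j => dl j * |SS j| / LL j) ∧ (Summable fun j => dl j * SS j ^ 2 / LL j) ∧
    SS 0 ≠ SS 2 ∧ SS 1 ≠ SS 3 := by
  have hV := rl_Vv_pos
  refine ⟨fun j => ?_, fun j => ?_, ?_, ?_, ?_, ?_, ?_, ?_, ?_, ?_⟩
  · have := hV j; unfold dl; positivity
  · have := hV j; unfold LL; positivity
  · exact rl_summ 17 (by norm_num)
  · have h1 : ∑' j, dl j ≤ ∑' j : ℕ, (1 / 2 : ℝ) ^ (j + 1) :=
      (rl_summ 17 (by norm_num)).tsum_le_tsum (rl_inv_pow_le 17 (by norm_num)) rl_summ_geo
    refine h1.trans (le_of_eq ?_)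
    have : ∑' j : ℕ, (1 / 2 : ℝ) ^ (j + 1) = ∑' j : ℕ, (1 / 2) * (1 / 2 : ℝ) ^ j := by
      congr 1; ext j; ring
    rw [this, tsum_mul_left, tsum_geometric_two]
    norm_num
  · have : (fun j => dl j * |SS j|) = fun j : ℕ => 1 / Vv j ^ 1 := by
      ext j
      have := hV j
      rw [rl_SS_abs]; unfold dl
      field_simp
    rw [this]; exact rl_summ 1 (by norm_num)
  · have : (fun j => dl j / LL j) = fun j : ℕ => 1 / Vv j ^ 53 := by
      ext j
      have := hV j
      unfold dl LL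
      field_simp
    rw [this]; exact rl_summ 53 (by norm_num)
  · have : (fun j => dl j * |SS j| / LL j) = fun j : ℕ => 1 / Vv j ^ 37 := by
      ext j
      have := hV j
      rw [rl_SS_abs]; unfold dl LL
      field_simp
    rw [this]; exact rl_summ 37 (by norm_num)
  · have : (fun j => dl j * SS j ^ 2 / LL j) = fun j : ℕ => 1 / Vv j ^ 21 := by
      ext j
      have := hV j
      rw [← sq_abs (SS j), rl_SS_abs]; unfold dl LL
      field_simp
    rw [this]; exact rl_summ 21 (by norm_num)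
  · have h0 : 0 < SS 0 := by
      have := hV 0
      unfold SS sg; norm_num; positivity
    have h2 : SS 2 < 0 := by
      have := hV 2
      have h3 : 0 < Vv 2 ^ 16 := by positivity
      unfold SS sg; norm_num; linarith
    linarith
  · have h0 : 0 < SS 1 := by
      have := hV 1
      unfold SS sg; norm_num; positivity
    have h2 : SS 3 < 0 := by
      have := hV 3
      have h3 : 0 < Vv 3 ^ 16 := by positivity
      unfold SS sg; norm_num; linarith
    linarith

lemma rl_en_nonneg (j : ℕ) (m : ℝ) (W : Fin 2 → ℝ) : 0 ≤ en j m W := by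
  have h1 := params_ok.1 j
  have h2 := params_ok.2.1 j
  unfold en
  positivity

lemma rl_en_summable (m : ℝ) (W : Fin 2 → ℝ) (hM : 0 ≤ MM m W) :
    Summable fun j => en j m W := by
  obtain ⟨hd, hL, -, -, -, hs1, -, hs2, -⟩ := params_ok
  have hb : Summable fun j => 4 * (W 0 ^ 2 + W 1 ^ 2) * (dl j / LL j)
      + 4 * (dl j * SS j ^ 2 / LL j) := (hs1.mul_left _).add (hs2.mul_left _)
  refine Summable.of_nonneg_of_le (fun j => rl_en_nonneg j m W) (fun j => ?_) hb
  have h1 := hd j
  have h2 := hL j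
  have hW : W (par j) ^ 2 ≤ W 0 ^ 2 + W 1 ^ 2 := by
    have : par j = 0 ∨ par j = 1 := by
      rcases Fin.exists_fin_two.mp ⟨par j, rfl⟩ with h | h
      · exact Or.inl h
      · exact Or.inr h
    rcases this with h | h <;> rw [h] <;> nlinarith [sq_nonneg (W 0), sq_nonneg (W 1)]
  have h3 : (W (par j) - SS j) ^ 2 ≤ 2 * (W 0 ^ 2 + W 1 ^ 2) + 2 * SS j ^ 2 := by
    nlinarith [sq_nonneg (W (par j) + SS j)]
  have h4 : LL j ^ 2 ≤ (LL j + MM m W) ^ 2 := by
    apply pow_le_pow_left₀ h2.le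
    linarith
  unfold en
  calc 2 * dl j * LL j * (W (par j) - SS j) ^ 2 / (LL j + MM m W) ^ 2
      ≤ 2 * dl j * LL j * (W (par j) - SS j) ^ 2 / LL j ^ 2 := by
        apply div_le_div_of_nonneg_left _ (by positivity) h4
        positivity
    _ ≤ 2 * dl j * LL j * (2 * (W 0 ^ 2 + W 1 ^ 2) + 2 * SS j ^ 2) / LL j ^ 2 := by
        apply div_le_div_of_nonneg_right _ (by positivity)
        apply mul_le_mul_of_nonneg_left h3
        positivity
    _ = 4 * (W 0 ^ 2 + W 1 ^ 2) * (dl j / LL j) + 4 * (dl j * SS j ^ 2 / LL j) := by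
        field_simp
        ring

lemma rl_step (μ W : Fin 2 → ℝ) (m : ℝ) (hμ : ∀ i, 1 ≤ μ i) (hm : μ 0 + μ 1 = m)
    (x : Fin 2 → Fin 2 → ℂ) (hx0 : ∀ i, x i 0 = (μ i : ℂ)) (hx1 : ∀ i, x i 1 = (W i : ℂ)) :
    ∃ μ' : Fin 2 → ℝ, (∀ i, 1 ≤ μ' i) ∧ μ' 0 + μ' 1 = (stepR (m, W)).1 ∧
      ∀ i, GG dl LL SS x i 0 = (μ' i : ℂ) ∧
        GG dl LL SS x i 1 = (((stepR (m, W)).2 i : ℝ) : ℂ) := by
  obtain ⟨hd, hL, -, -, -, -, -, -, -⟩ := params_ok
  have hmpos : 0 < m := by have := hμ 0; have := hμ 1; linarith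
  have hM : 0 < MM m W := by unfold MM; positivity
  have hTT : TT x = ((MM m W : ℝ) : ℂ) := by
    unfold TT MM
    rw [hx0, hx0, hx1, hx1, ← hm]
    push_cast
    ring
  have hga : ∀ (i : Fin 2) (j : ℕ), (if par j = i then (dl j : ℂ) * ga (LL j) (SS j) i x else 0)
      = (((if par j = i then m * en j m W else 0) : ℝ) : ℂ) := by
    intro i j
    by_cases h : par j = i
    · rw [if_pos h, if_pos h]
      have h2 := hL j
      have h5 : m * en j m W = dl j * (2 * m * (W i - SS j) ^ 2 /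
          (LL j * (1 + MM m W / LL j) ^ 2)) := by
        unfold en
        rw [h]
        have h6 : LL j + MM m W ≠ 0 := by positivity
        have h7 : 1 + MM m W / LL j ≠ 0 := by positivity
        have h8 : 1 + MM m W / LL j = (LL j + MM m W) / LL j := by field_simp
        rw [h8]
        field_simp
      rw [h5]
      unfold ga
      rw [hTT, hx0, hx0, hx1, ← hm]
      push_cast
      ring
    · rw [if_neg h, if_neg h]; simp
  have hal : ∀ (i : Fin 2) (j : ℕ), (if par j = i then (dl j : ℂ) * al (LL j) (SS j) i x else 0)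
      = -(((if par j = i then dr j m W else 0) : ℝ) : ℂ) := by
    intro i j
    by_cases h : par j = i
    · rw [if_pos h, if_pos h]
      have h2 := hL j
      have h5 : dr j m W = - (dl j * ((W i - SS j) / (1 + MM m W / LL j))) := by
        unfold dr
        rw [h]
        have h6 : LL j + MM m W ≠ 0 := by positivity
        have h8 : 1 + MM m W / LL j = (LL j + MM m W) / LL j := by field_simp
        rw [h8]
        field_simp
        ring
      rw [h5]
      unfold al
      rw [hTT, hx1]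
      push_cast
      ring
    · rw [if_neg h, if_neg h]; simp
  have hsum : ∀ i : Fin 2, Summable fun j => (if par j = i then m * en j m W else 0) := by
    intro i
    refine Summable.of_nonneg_of_le (fun j => ?_) (fun j => ?_)
      ((rl_en_summable m W hM.le).mul_left m)
    · split_ifs
      · exact mul_nonneg hmpos.le (rl_en_nonneg j m W)
      · exact le_refl _
    · split_ifs
      · exact le_refl _
      · exact mul_nonneg hmpos.le (rl_en_nonneg j m W)
  refine ⟨fun i => μ i + ∑' j, (if par j = i then m * en j m W else 0), fun i => ?_, ?_,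
    fun i => ⟨?_, ?_⟩⟩
  · have h1 : 0 ≤ ∑' j, (if par j = i then m * en j m W else 0) := by
      apply tsum_nonneg
      intro j
      split_ifs
      · exact mul_nonneg hmpos.le (rl_en_nonneg j m W)
      · exact le_refl _
    have := hμ i
    simp only
    linarith
  · have h1 : (∑' j, (if par j = 0 then m * en j m W else 0))
        + ∑' j, (if par j = 1 then m * en j m W else 0) = m * ∑' j, en j m W := by
      rw [← (hsum 0).tsum_add (hsum 1), ← tsum_mul_left]
      apply tsum_congr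
      intro j
      rcases Fin.exists_fin_two.mp ⟨par j, rfl⟩ with h | h
      · rw [h]; simp
      · rw [h]; simp
    simp only [stepR]
    rw [mul_add, mul_one, ← h1, ← hm]
    ring
  · simp only [GG, Matrix.cons_val_zero]
    rw [hx0, tsum_congr (hga i), ← Complex.ofReal_tsum]
    push_cast
    ring
  · simp only [GG, Matrix.cons_val_one, stepR]
    rw [hx1, tsum_congr (hal i), tsum_neg, ← Complex.ofReal_tsum]
    push_cast
    ring

theorem real_orbit (t : ℕ) :
    ∃ μ : Fin 2 → ℝ, (∀ i, 1 ≤ μ i) ∧ μ 0 + μ 1 = (stepR^[t] xR).1 ∧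
      ∀ i, ((GG dl LL SS)^[t] (fun i => ![1, ((xR.2 i : ℝ) : ℂ)])) i 0 = (μ i : ℂ) ∧
        ((GG dl LL SS)^[t] (fun i => ![1, ((xR.2 i : ℝ) : ℂ)])) i 1
          = (((stepR^[t] xR).2 i : ℝ) : ℂ) := by
  induction t with
  | zero =>
    refine ⟨fun _ => 1, fun _ => le_refl _, ?_, fun i => ⟨?_, ?_⟩⟩
    · simp only [Function.iterate_zero, id]
      unfold xR
      norm_num
    · simp
    · simp
  | succ t ih =>
    obtain ⟨μ, hμ, hm, hx⟩ := ih
    rw [Function.iterate_succ_apply', Function.iterate_succ_apply']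
    exact rl_step μ (stepR^[t] xR).2 (stepR^[t] xR).1 hμ hm _ (fun i => (hx i).1)
      (fun i => (hx i).2)

end Pool.Agent.DW
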