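import Pool.Agent.Helper15.DW.Phases
import Pool.Agent.Helper15.DW.Conj
import Pool.Agent.Helper15.DW.Holo
import Pool.Agent.Helper15.DW.Field
import Pool.Agent.Helper15.DW.Real
import Pool.Agent.Helper1.DW.Ball2

set_option autoImplicit false
open Filter Topology

namespace Pool.Agent.DW

theorem exists_F :
    ∃ F : (Fin 2 → Fin 2 → ℂ) → (Fin 2 → Fin 2 → ℂ),
      DifferentiableOn ℂ F (Set.univ.pi fun _ => D0) ∧
      Set.MapsTo F (Set.univ.pi fun _ => D0) (Set.univ.pi fun _ => D0) ∧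
      (∀ z ∈ (Set.univ.pi fun _ => D0 : Set (Fin 2 → Fin 2 → ℂ)), F z ≠ z) ∧
      ∃ z0 ∈ (Set.univ.pi fun _ => D0 : Set (Fin 2 → Fin 2 → ℂ)), ∃ η > 0, ∀ i : Fin 2,
        ∃ᶠ m : ℕ in atTop, ‖(F^[m] z0) i 0‖ ^ 2 + ‖(F^[m] z0) i 1‖ ^ 2 ≤ 1 - η := by
  obtain ⟨hd, hL, hds, hd1, hdS, hdL, hdSL, hdSL2, h02, h13⟩ := params_ok
  obtain ⟨hmaps, hfix⟩ := GG_props dl LL SS hd hL hds hd1 hdS hdL hdSL hdSL2 h02 h13
  have hdiff := GG_diff dl LL SS hd hL hds hdS hdL hdSL hdSL2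
  refine conj_to_ball (GG dl LL SS) hdiff hmaps hfix (fun i => ![1, ((xR.2 i : ℝ) : ℂ)])
    ?_ 4 ?_
  · intro i
    simp
  · intro i
    rw [frequently_atTop]
    intro T
    obtain ⟨t, ht, h1, h2⟩ := real_recur' i T
    refine ⟨t, ht, ?_⟩
    obtain ⟨μ, hμ, hμs, hx⟩ := real_orbit t
    obtain ⟨hx0, hx1⟩ := hx i
    rw [hx0, hx1]
    have hμi : μ i ≤ 4 := by
      have h3 := hμ 0
      have h4 := hμ 1
      fin_cases i
      · show μ 0 ≤ 4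
        linarith
      · show μ 1 ≤ 4
        linarith
    refine ⟨?_, ?_, ?_⟩
    · simp only [Complex.ofReal_re, Complex.ofReal_im]
      have := hμ i
      linarith
    · rw [Complex.norm_real, Real.norm_eq_abs, abs_of_pos (by linarith [hμ i])]
      exact hμi
    · rw [Complex.norm_real, Real.norm_eq_abs]
      linarith

theorem D0_facts : IsOpen D0 ∧ D0.Nonempty ∧ Bornology.IsBounded D0 ∧ Convex ℝ D0 := by
  have h : D0 = Pool.Agent.Helper1.DW.ballN 2 := by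
    ext z
    simp [D0, Pool.Agent.Helper1.DW.ballN, Fin.sum_univ_two]
  rw [h]
  exact ⟨Pool.Agent.Helper1.DW.isOpen_ballN 2, Pool.Agent.Helper1.DW.nonempty_ballN 2,
    Pool.Agent.Helper1.DW.isBounded_ballN 2, Pool.Agent.Helper1.DW.convex_ballN 2⟩

theorem not_main_DW :
    ¬ (∀ (ℓ : ℕ) (N : Fin ℓ → ℕ) (D : ∀ j : Fin ℓ, Set (Fin (N j) → ℂ)),
      (∀ j, 0 < N j) → 2 ≤ ∑ j, N j →
      (∀ j, IsOpen (D j) ∧ (D j).Nonempty ∧ Bornology.IsBounded (D j) ∧ Convex ℝ (D j)) →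
      (∀ j, ∀ f : (Fin (N j) → ℂ) → (Fin (N j) → ℂ),
          DifferentiableOn ℂ f (D j) → Set.MapsTo f (D j) (D j) →
          (∀ z ∈ D j, f z ≠ z) →
          ∃ p ∈ frontier (D j), ∀ z ∈ D j,
            Tendsto (fun m : ℕ => f^[m] z) atTop (𝓝 p)) →
      ∀ F : (∀ j : Fin ℓ, Fin (N j) → ℂ) → (∀ j : Fin ℓ, Fin (N j) → ℂ),
        DifferentiableOn ℂ F (Set.univ.pi D) →
        Set.MapsTo F (Set.univ.pi D) (Set.univ.pi D) →
        (∀ z ∈ Set.univ.pi D, F z ≠ z) →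
        ∃ j₀ : Fin ℓ, ∃ p ∈ frontier (D j₀), ∀ z ∈ Set.univ.pi D,
          Tendsto (fun m : ℕ => (F^[m] z) j₀) atTop (𝓝 p)) := by
  intro H
  obtain ⟨F, hF1, hF2, hF3, z0, hz0, η, hη, hrec⟩ := exists_F
  obtain ⟨j, p, hp, hconv⟩ := H 2 (fun _ => 2) (fun _ => D0) (fun _ => by norm_num)
    (by simp) (fun _ => D0_facts)
    (fun _ f hf hm hfix => Pool.Agent.Helper1.DW.denjoyWolff_ball2 f hf hm hfix) F hF1 hF2 hF3
  have hpD : p ∉ D0 := by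
    have := D0_facts.1.frontier_eq ▸ hp
    exact this.2
  apply hpD
  have h1 := hconv z0 hz0
  have h2 : ‖p 0‖ ^ 2 + ‖p 1‖ ^ 2 ≤ 1 - η := by
    have hcont : Continuous fun q : Fin 2 → ℂ => ‖q 0‖ ^ 2 + ‖q 1‖ ^ 2 := by fun_prop
    have hcl : IsClosed {q : Fin 2 → ℂ | ‖q 0‖ ^ 2 + ‖q 1‖ ^ 2 ≤ 1 - η} :=
      isClosed_le hcont continuous_const
    exact hcl.mem_of_frequently_of_tendsto (hrec j) h1
  show ‖p 0‖ ^ 2 + ‖p 1‖ ^ 2 < 1
  linarith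

end Pool.Agent.DW
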