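import Mathlib

/-!
# One-step real inequalities (packet DW11)
-/

set_option autoImplicit false

namespace Pool.Agent.DW

private lemma dw11_pw (V : ℝ) (hV : (2:ℝ) ^ 20 ≤ V) (a k : ℕ) (hk : 1 ≤ k) :
    V ^ a * 1000000 ≤ V ^ (a + k) := by
  have hV0 : (0:ℝ) < V := lt_of_lt_of_le (by positivity) hV
  have h1 : (1:ℝ) ≤ V := le_trans (by norm_num) hV
  have h2 : V ^ 1 ≤ V ^ k := pow_le_pow_right₀ h1 hk
  have h3 : (1000000:ℝ) ≤ V ^ k := by
    rw [pow_one] at h2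
    exact le_trans (le_trans (by norm_num) hV) h2
  rw [pow_add]
  exact mul_le_mul_of_nonneg_left h3 (by positivity)

private lemma dw11_a (s t y : ℝ) (ht : 0 < t) (h1 : t ≤ s) (hy : 0 ≤ y) : t * (1 - y) ≤ s := by
  have h2 : t * (1 - y) ≤ t * 1 := mul_le_mul_of_nonneg_left (by linarith) ht.le
  linarith

private lemma dw11_b (s t y : ℝ) (ht : 0 < t) (h1 : 76 / 100 * s ≤ t) (hy : 5 / 4 ≤ y) :
    t * (1 - y) ≤ -(19 / 100 * s) := by
  have h2 : t * (1 - y) ≤ t * (-(1 / 4)) := mul_le_mul_of_nonneg_left (by linarith) ht.le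
  linarith

private lemma dw11_c (s t y : ℝ) (ht : 0 < t) (h1 : 76 / 100 * s ≤ t) (hy : y ≤ 1 / 2) :
    38 / 100 * s ≤ t * (1 - y) := by
  have h2 : t * (1 / 2) ≤ t * (1 - y) := mul_le_mul_of_nonneg_left (by linarith) ht.le
  linarith

private lemma dw11_d (s t y : ℝ) (ht : 0 < t) (h1 : 76 / 100 * s ≤ t) (hy : y ≤ 3 / 4) :
    19 / 100 * s ≤ t * (1 - y) := by
  have h2 : t * (1 / 4) ≤ t * (1 - y) := mul_le_mul_of_nonneg_left (by linarith) ht.le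
  linarith

private lemma dw11_e (s t y : ℝ) (ht : 0 < t) (h1 : t ≤ s) (hy : y ≤ 3 / 2) :
    -s ≤ t * (1 - y) := by
  have h2 : t * (-1) ≤ t * (1 - y) := mul_le_mul_of_nonneg_left (by linarith) ht.le
  linarith

private lemma dw11_f (k z : ℝ) (h1 : 99 / 100 ≤ k) (h2 : k ≤ 1) (h3 : z ≤ 1 / 1000)
    (h4 : -(1 / 1000) ≤ z) : 98 / 100 ≤ k * (1 - z) ∧ k * (1 - z) ≤ 101 / 100 := by
  constructor
  · have : 99 / 100 * (1 - z) ≤ k * (1 - z) := mul_le_mul_of_nonneg_right h1 (by linarith)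
    linarith
  · have : k * (1 - z) ≤ 1 * (1 - z) := mul_le_mul_of_nonneg_right h2 (by linarith)
    linarith

private lemma dw11_g (a x w : ℝ) (h0 : 0 ≤ a) (h1 : a ≤ 1) :
    min x w ≤ x + a * (w - x) ∧ x + a * (w - x) ≤ max x w := by
  constructor
  · have q1 := mul_le_mul_of_nonneg_left (min_le_left x w) (sub_nonneg.2 h1)
    have q2 := mul_le_mul_of_nonneg_left (min_le_right x w) h0
    nlinarith
  · have q1 := mul_le_mul_of_nonneg_left (le_max_left x w) (sub_nonneg.2 h1)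
    have q2 := mul_le_mul_of_nonneg_left (le_max_right x w) h0
    nlinarith

private lemma dw11_sq (A P : ℝ) : 10 * A * P ≤ P ^ 2 + 25 * (A * A) := by
  nlinarith [sq_nonneg (P - 5 * A)]

private lemma dw11_abs (P A B : ℝ) (h1 : -(3 / 2) * A ≤ P) (h2 : P ≤ B / 2) (hA : 0 < A)
    (h3 : A * 1000000 ≤ B) : |P| ≤ B / 2 := by
  rw [abs_le]; constructor <;> linarith

private lemma dw11_sk (s k : ℝ) (hs : 0 < s) (h1 : k ≤ 1) (h2 : 76 / 100 ≤ k) :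
    s * k ≤ s ∧ 76 / 100 * s ≤ s * k := by
  constructor
  · have := mul_le_mul_of_nonneg_left h1 hs.le
    linarith
  · have := mul_le_mul_of_nonneg_left h2 hs.le
    linarith

theorem one_step (V m P Q P' Q' e1 e2 : ℝ) (hV : (2:ℝ) ^ 20 ≤ V) (hm1 : 0 < m) (hm : m ≤ 4)
    (hP1 : -(3 / 2) * V ^ 16 ≤ P) (hP2 : P ≤ V ^ 36 / 2)
    (hQ1 : V ^ 18 / 2 ≤ Q) (hQ2 : Q ≤ 3 / 2 * V ^ 32)
    (he1 : |e1| ≤ 8 / V ^ 8) (he2 : |e2| ≤ 8 / V ^ 8)
    (hP' : P' = P + 1 / V ^ 17 * (V ^ 36 / (V ^ 36 + (m + P ^ 2 + Q ^ 2))) * (-V ^ 16 - P)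
      + 1 / V ^ 68 * (V ^ 144 / (V ^ 144 + (m + P ^ 2 + Q ^ 2))) * (V ^ 64 - P) + e1)
    (hQ' : Q' = Q + 1 / V ^ 34 * (V ^ 72 / (V ^ 72 + (m + P ^ 2 + Q ^ 2))) * (V ^ 32 - Q) + e2) :
    Q' ≤ 3 / 2 * V ^ 32 ∧ Q' ≤ Q + 2 / V ^ 2 ∧
    (Q ≤ V ^ 32 / 2 → Q + 1 / (4 * V ^ 2) ≤ Q') ∧ (V ^ 32 / 2 ≤ Q → V ^ 32 / 2 ≤ Q') ∧
    min P (-V ^ 16) ≤ P' ∧ P' ≤ max P (-V ^ 16) + 2 / V ^ 4 ∧
    (V ^ 32 / 2 ≤ Q → P + 1 / (2 * V ^ 4) ≤ P') := by
  have hV0 : (0:ℝ) < V := lt_of_lt_of_le (by positivity) hV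
  have h1V : (1:ℝ) ≤ V := le_trans (by norm_num) hV
  have hVne : V ≠ 0 := hV0.ne'
  have g0 : (1000000:ℝ) ≤ V ^ 72 := by simpa using dw11_pw V hV 0 72 (by norm_num)
  have g16 := dw11_pw V hV 16 20 (by norm_num)
  have g36 := dw11_pw V hV 36 28 (by norm_num)
  have g64 := dw11_pw V hV 64 8 (by norm_num)
  have g72 := dw11_pw V hV 72 72 (by norm_num)
  have g32 : (1000000:ℝ) ≤ V ^ 32 := by simpa using dw11_pw V hV 0 32 (by norm_num)
  norm_num only at g16 g36 g64 g72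
  have p16 : 0 < V ^ 16 := by positivity
  have p32 : 0 < V ^ 32 := by positivity
  have p36 : 0 < V ^ 36 := by positivity
  have p64 : 0 < V ^ 64 := by positivity
  have p72 : 0 < V ^ 72 := by positivity
  have p144 : 0 < V ^ 144 := by positivity
  set M : ℝ := m + P ^ 2 + Q ^ 2 with hM
  have hM0 : 0 < M := by rw [hM]; positivity
  have hPsq : P ^ 2 ≤ V ^ 72 / 4 := by
    have : |P| ≤ V ^ 36 / 2 := dw11_abs P _ _ hP1 hP2 p16 g16
    have h2 : P ^ 2 ≤ (V ^ 36 / 2) ^ 2 := by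
      rw [← sq_abs P]
      exact pow_le_pow_left₀ (abs_nonneg _) this 2
    calc P ^ 2 ≤ (V ^ 36 / 2) ^ 2 := h2
      _ = V ^ 72 / 4 := by ring
  have hQ0 : 0 < Q := lt_of_lt_of_le (by positivity) hQ1
  have hQsq : Q ^ 2 ≤ 9 / 4 * V ^ 64 := by
    have h2 : Q ^ 2 ≤ (3 / 2 * V ^ 32) ^ 2 := pow_le_pow_left₀ hQ0.le hQ2 2
    calc Q ^ 2 ≤ (3 / 2 * V ^ 32) ^ 2 := h2
      _ = 9 / 4 * V ^ 64 := by ring
  have hM3 : M ≤ 3 / 10 * V ^ 72 := by rw [hM]; linarith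
  -- k0, k1, k2
  set k0 : ℝ := V ^ 36 / (V ^ 36 + M) with hk0
  set k1 : ℝ := V ^ 72 / (V ^ 72 + M) with hk1
  set k2 : ℝ := V ^ 144 / (V ^ 144 + M) with hk2
  have k0pos : 0 < k0 := by rw [hk0]; positivity
  have k1pos : 0 < k1 := by rw [hk1]; positivity
  have k2pos : 0 < k2 := by rw [hk2]; positivity
  have k0le : k0 ≤ 1 := by rw [hk0, div_le_one (by positivity)]; linarith
  have k1le : k1 ≤ 1 := by rw [hk1, div_le_one (by positivity)]; linarith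
  have k2le : k2 ≤ 1 := by rw [hk2, div_le_one (by positivity)]; linarith
  have k1ge : 76 / 100 ≤ k1 := by
    rw [hk1, le_div_iff₀ (by positivity)]; linarith
  have k2ge : 99 / 100 ≤ k2 := by
    rw [hk2, le_div_iff₀ (by positivity)]; linarith
  -- s = 1/V^2, r = 1/V^4
  set s : ℝ := 1 / V ^ 2 with hs
  have hs0 : 0 < s := by rw [hs]; positivity
  have hss : s * s ≤ 1 / 1000000 * s := by
    have h2 : (1000000:ℝ) ≤ V ^ 2 := by simpa using dw11_pw V hV 0 2 (by norm_num)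
    have : s ≤ 1 / 1000000 := by
      rw [hs]; exact one_div_le_one_div_of_le (by norm_num) h2
    exact mul_le_mul_of_nonneg_right this hs0.le
  have hs1 : s ≤ 1 / 1000000 := by
    have h2 : (1000000:ℝ) ≤ V ^ 2 := by simpa using dw11_pw V hV 0 2 (by norm_num)
    rw [hs]; exact one_div_le_one_div_of_le (by norm_num) h2
  set r : ℝ := s * s with hr
  have hr0 : 0 < r := by rw [hr]; positivity
  have hrr : r * r ≤ 1 / 1000000 * r := by
    apply mul_le_mul_of_nonneg_right _ hr0.le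
    linarith
  have e8 : 8 / V ^ 8 = 8 * (r * r) := by rw [hr, hs]; field_simp
  have e17 : 1 / V ^ 17 ≤ 1 := by
    rw [div_le_one (by positivity)]; exact one_le_pow₀ h1V
  have e34 : 1 / V ^ 34 = s / V ^ 32 := by rw [hs]; field_simp
  have e68 : 1 / V ^ 68 = r / V ^ 64 := by rw [hr, hs]; field_simp
  have e2V : 2 / V ^ 2 = 2 * s := by rw [hs]; ring
  have e4V : 1 / (4 * V ^ 2) = s / 4 := by rw [hs]; field_simp
  have e2r : 2 / V ^ 4 = 2 * r := by rw [hr, hs]; field_simp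
  have e2r' : 1 / (2 * V ^ 4) = r / 2 := by rw [hr, hs]; field_simp
  rw [e8] at he1 he2
  rw [abs_le] at he1 he2
  -- y = Q / V^32
  set y : ℝ := Q / V ^ 32 with hy
  have hQy : Q = y * V ^ 32 := by rw [hy]; field_simp
  have hy0 : 0 < y := by rw [hy]; positivity
  have hQ'' : Q' = Q + s * k1 * (1 - y) + e2 := by
    rw [hQ', e34]
    have : s / V ^ 32 * k1 * (V ^ 32 - Q) = s * k1 * (1 - y) := by
      rw [hy]; field_simp
    rw [this]
  set z : ℝ := P / V ^ 64 with hz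
  have hP'' : P' = P + 1 / V ^ 17 * k0 * (-V ^ 16 - P) + r * k2 * (1 - z) + e1 := by
    rw [hP', e68]
    have : r / V ^ 64 * k2 * (V ^ 64 - P) = r * k2 * (1 - z) := by
      rw [hz]; field_simp
    rw [this]
  have hz1 : z ≤ 1 / 1000 := by
    rw [hz, div_le_iff₀ p64]; linarith
  have hz2 : -(1 / 1000) ≤ z := by
    rw [hz, le_div_iff₀ p64]; linarith
  have hc1 : 98 / 100 * r ≤ r * k2 * (1 - z) := by
    have : 98 / 100 ≤ k2 * (1 - z) := (dw11_f k2 z k2ge k2le hz1 hz2).1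
    calc 98 / 100 * r = r * (98 / 100) := by ring
      _ ≤ r * (k2 * (1 - z)) := mul_le_mul_of_nonneg_left this hr0.le
      _ = r * k2 * (1 - z) := by ring
  have hc2 : r * k2 * (1 - z) ≤ 101 / 100 * r := by
    have : k2 * (1 - z) ≤ 101 / 100 := (dw11_f k2 z k2ge k2le hz1 hz2).2
    calc r * k2 * (1 - z) = r * (k2 * (1 - z)) := by ring
      _ ≤ r * (101 / 100) := mul_le_mul_of_nonneg_left this hr0.le
      _ = 101 / 100 * r := by ring
  rw [e2V, e4V, e2r, e2r']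
  have hsk : 0 < s * k1 := by positivity
  have hsk1 : s * k1 ≤ s := (dw11_sk s k1 hs0 k1le k1ge).1
  have hsk2 : 76 / 100 * s ≤ s * k1 := (dw11_sk s k1 hs0 k1le k1ge).2
  refine ⟨?_, ?_, ?_, ?_, ?_, ?_, ?_⟩
  · -- Q' ≤ 3/2 V^32
    rcases le_total y (5 / 4) with h | h
    · have h3 : s * k1 * (1 - y) ≤ s := dw11_a _ _ _ hsk hsk1 hy0.le
      have : Q ≤ 5 / 4 * V ^ 32 := by rw [hQy]; exact mul_le_mul_of_nonneg_right h p32.le
      rw [hQ'']; linarith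
    · have h3 : s * k1 * (1 - y) ≤ - (19 / 100 * s) := dw11_b _ _ _ hsk hsk2 h
      rw [hQ'']; linarith
  · -- Q' ≤ Q + 2 s
    have h3 : s * k1 * (1 - y) ≤ s := dw11_a _ _ _ hsk hsk1 hy0.le
    rw [hQ'']; linarith
  · intro h
    have hy2 : y ≤ 1 / 2 := by rw [hy, div_le_iff₀ p32]; linarith
    have h3 : 38 / 100 * s ≤ s * k1 * (1 - y) := dw11_c _ _ _ hsk hsk2 hy2
    rw [hQ'']; linarith
  · intro h
    rcases le_total y (3 / 4) with h' | h'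
    · have h3 : 19 / 100 * s ≤ s * k1 * (1 - y) := dw11_d _ _ _ hsk hsk2 h'
      rw [hQ'']; linarith
    · have hy3 : y ≤ 3 / 2 := by rw [hy, div_le_iff₀ p32]; linarith
      have h3 : - s ≤ s * k1 * (1 - y) := dw11_e _ _ _ hsk hsk1 hy3
      have : 3 / 4 * V ^ 32 ≤ Q := by rw [hQy]; exact mul_le_mul_of_nonneg_right h' p32.le
      rw [hQ'']; linarith
  · -- min
    have ha0 : 0 ≤ 1 / V ^ 17 * k0 := by positivity
    have ha1 : 1 / V ^ 17 * k0 ≤ 1 := by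
      calc 1 / V ^ 17 * k0 ≤ 1 * 1 := mul_le_mul e17 k0le k0pos.le (by norm_num)
        _ = 1 := by ring
    have h3 : min P (-V ^ 16) ≤ P + 1 / V ^ 17 * k0 * (-V ^ 16 - P) :=
      (dw11_g _ P (-V ^ 16) ha0 ha1).1
    rw [hP'']; linarith
  · have ha0 : 0 ≤ 1 / V ^ 17 * k0 := by positivity
    have ha1 : 1 / V ^ 17 * k0 ≤ 1 := by
      calc 1 / V ^ 17 * k0 ≤ 1 * 1 := mul_le_mul e17 k0le k0pos.le (by norm_num)
        _ = 1 := by ring
    have h3 : P + 1 / V ^ 17 * k0 * (-V ^ 16 - P) ≤ max P (-V ^ 16) :=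
      (dw11_g _ P (-V ^ 16) ha0 ha1).2
    rw [hP'']; linarith
  · intro h
    have ha0 : 0 ≤ 1 / V ^ 17 * k0 := by positivity
    have key : -(1 / 10 * r) ≤ 1 / V ^ 17 * k0 * (-V ^ 16 - P) := by
      have hQl : V ^ 64 / 4 ≤ Q ^ 2 := by
        have h2 : (V ^ 32 / 2) ^ 2 ≤ Q ^ 2 := pow_le_pow_left₀ (by positivity) h 2
        calc V ^ 64 / 4 = (V ^ 32 / 2) ^ 2 := by ring
          _ ≤ Q ^ 2 := h2
      have g39 := dw11_pw V hV 39 25 (by norm_num)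
      have g46 := dw11_pw V hV 46 18 (by norm_num)
      norm_num only at g39 g46
      have hsq : 10 * V ^ 23 * P ≤ P ^ 2 + 25 * V ^ 46 := by
        have h9 := dw11_sq (V ^ 23) P
        have h10 : V ^ 23 * V ^ 23 = V ^ 46 := by ring
        rw [h10] at h9; exact h9
      have hmain : 10 * V ^ 23 * (V ^ 16 + P) ≤ V ^ 36 + M := by
        have : 10 * V ^ 23 * (V ^ 16 + P) = 10 * V ^ 39 + 10 * V ^ 23 * P := by ring
        rw [this, hM]; linarith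
      have e : 1 / V ^ 17 * k0 * (-V ^ 16 - P) = -(V ^ 19 * (V ^ 16 + P) / (V ^ 36 + M)) := by
        rw [hk0]; field_simp; ring
      have hr4 : r = 1 / V ^ 4 := by rw [hr, hs]; field_simp
      rw [e, neg_le_neg_iff, div_le_iff₀ (by positivity), hr4]
      have h5 : V ^ 19 * (V ^ 16 + P) = 1 / 10 * (1 / V ^ 4) * (10 * V ^ 23 * (V ^ 16 + P)) := by
        field_simp
      rw [h5]
      exact mul_le_mul_of_nonneg_left hmain (by positivity)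
    rw [hP'']; linarith

private lemma dw11_h (a b : ℝ) : (a + b) ^ 2 ≤ 2 * (a ^ 2 + b ^ 2) := by
  nlinarith [sq_nonneg (a - b)]

theorem one_cost (V m P Q : ℝ) (hV : (2:ℝ) ^ 20 ≤ V) (hm1 : 0 < m)
    (hP1 : -(3 / 2) * V ^ 16 ≤ P) (hQ1 : V ^ 18 / 2 ≤ Q) :
    (P ≤ -V ^ 16 / 2 + 8 / V ^ 2 * (Q - V ^ 18 / 2) →
      2 * V ^ 19 * (P + V ^ 16) ^ 2 / (V ^ 36 + (m + P ^ 2 + Q ^ 2)) ^ 2 + 36 / V ^ 42
        + 8 * V ^ 10 / Q ^ 2 ≤ 300 * V ^ 15 / Q ^ 2 + 36 / V ^ 42) ∧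
    (V ^ 32 / 2 ≤ Q →
      2 * V ^ 19 * (P + V ^ 16) ^ 2 / (V ^ 36 + (m + P ^ 2 + Q ^ 2)) ^ 2 + 36 / V ^ 42
        + 8 * V ^ 10 / Q ^ 2 ≤ 37 / V ^ 42) := by
  have hV0 : (0:ℝ) < V := lt_of_lt_of_le (by positivity) hV
  have h1V : (1:ℝ) ≤ V := le_trans (by norm_num) hV
  have hVne : V ≠ 0 := hV0.ne'
  have hQ0 : 0 < Q := lt_of_lt_of_le (by positivity) hQ1
  have hQ2p : 0 < Q ^ 2 := by positivity
  set M : ℝ := m + P ^ 2 + Q ^ 2 with hM
  have hM0 : 0 < M := by rw [hM]; positivity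
  have hMQ : Q ^ 2 ≤ V ^ 36 + M := by
    have h0 : 0 ≤ V ^ 36 := by positivity
    have h1 : 0 ≤ P ^ 2 := sq_nonneg P
    rw [hM]; linarith
  have hN : 0 < V ^ 36 + M := by positivity
  constructor
  · intro hP
    have hQl : V ^ 36 / 4 ≤ Q ^ 2 := by
      have h2 : (V ^ 18 / 2) ^ 2 ≤ Q ^ 2 := pow_le_pow_left₀ (by positivity) hQ1 2
      calc V ^ 36 / 4 = (V ^ 18 / 2) ^ 2 := by ring
        _ ≤ Q ^ 2 := h2
    have hX : (P + V ^ 16) ^ 2 ≤ V ^ 32 / 2 + 128 / V ^ 4 * Q ^ 2 := by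
      have hA : |P + V ^ 16| ≤ V ^ 16 / 2 + 8 / V ^ 2 * Q := by
        have q1 : 0 ≤ 8 / V ^ 2 * Q := by positivity
        have q2 : 8 / V ^ 2 * (Q - V ^ 18 / 2) ≤ 8 / V ^ 2 * Q := by
          apply mul_le_mul_of_nonneg_left _ (by positivity)
          have : 0 < V ^ 18 := by positivity
          linarith
        rw [abs_le]; constructor <;> linarith
      have h2 : (P + V ^ 16) ^ 2 ≤ (V ^ 16 / 2 + 8 / V ^ 2 * Q) ^ 2 := by
        rw [← sq_abs (P + V ^ 16)]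
        exact pow_le_pow_left₀ (abs_nonneg _) hA 2
      have h3 : (V ^ 16 / 2 + 8 / V ^ 2 * Q) ^ 2 ≤ 2 * ((V ^ 16 / 2) ^ 2 + (8 / V ^ 2 * Q) ^ 2) :=
        dw11_h _ _
      have h4 : 2 * ((V ^ 16 / 2) ^ 2 + (8 / V ^ 2 * Q) ^ 2) = V ^ 32 / 2 + 128 / V ^ 4 * Q ^ 2 := by
        field_simp; ring
      linarith
    have hT : 2 * V ^ 19 * (P + V ^ 16) ^ 2 / (V ^ 36 + M) ^ 2 ≤
        2 * V ^ 19 * (V ^ 32 / 2 + 128 / V ^ 4 * Q ^ 2) / (Q ^ 2) ^ 2 := by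
      apply div_le_div₀ (by positivity) _ (by positivity)
      · exact pow_le_pow_left₀ hQ2p.le hMQ 2
      · exact mul_le_mul_of_nonneg_left hX (by positivity)
    have e1 : 2 * V ^ 19 * (V ^ 32 / 2 + 128 / V ^ 4 * Q ^ 2) / (Q ^ 2) ^ 2 =
        V ^ 51 / (Q ^ 2) ^ 2 + 256 * V ^ 15 / Q ^ 2 := by
      field_simp
      ring
    have e2 : V ^ 51 / (Q ^ 2) ^ 2 ≤ 4 * V ^ 15 / Q ^ 2 := by
      rw [div_le_div_iff₀ (by positivity) (by positivity)]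
      have : V ^ 51 * Q ^ 2 = (V ^ 36 / 4) * (4 * V ^ 15 * Q ^ 2) := by ring
      rw [this]
      have : 4 * V ^ 15 * (Q ^ 2) ^ 2 = Q ^ 2 * (4 * V ^ 15 * Q ^ 2) := by ring
      rw [this]
      exact mul_le_mul_of_nonneg_right hQl (by positivity)
    have e3 : 8 * V ^ 10 / Q ^ 2 ≤ V ^ 15 / Q ^ 2 := by
      apply div_le_div_of_nonneg_right _ hQ2p.le
      have g10 := dw11_pw V hV 10 5 (by norm_num)
      norm_num only at g10
      have : 0 < V ^ 10 := by positivity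
      linarith
    have e4 : V ^ 51 / (Q ^ 2) ^ 2 + 256 * V ^ 15 / Q ^ 2 + 8 * V ^ 10 / Q ^ 2 ≤
        300 * V ^ 15 / Q ^ 2 := by
      have e5 : 300 * V ^ 15 / Q ^ 2 = 300 * (V ^ 15 / Q ^ 2) := by ring
      have e6 : 256 * V ^ 15 / Q ^ 2 = 256 * (V ^ 15 / Q ^ 2) := by ring
      have e7 : 4 * V ^ 15 / Q ^ 2 = 4 * (V ^ 15 / Q ^ 2) := by ring
      have e8 : 0 < V ^ 15 / Q ^ 2 := by positivity
      rw [e5, e6]; rw [e7] at e2; linarith
    rw [e1] at hT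
    linarith
  · intro hQ
    have hQl : V ^ 64 / 4 ≤ Q ^ 2 := by
      have h2 : (V ^ 32 / 2) ^ 2 ≤ Q ^ 2 := pow_le_pow_left₀ (by positivity) hQ 2
      calc V ^ 64 / 4 = (V ^ 32 / 2) ^ 2 := by ring
        _ ≤ Q ^ 2 := h2
    have hX : (P + V ^ 16) ^ 2 ≤ 2 * (V ^ 36 + M) := by
      have h3 : (P + V ^ 16) ^ 2 ≤ 2 * (P ^ 2 + V ^ 32) := by
        have h8 := dw11_h P (V ^ 16)
        have h9 : (V ^ 16) ^ 2 = V ^ 32 := by ring
        rw [h9] at h8; exact h8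
      have g32 := dw11_pw V hV 32 4 (by norm_num)
      norm_num only at g32
      have : 0 < V ^ 32 := by positivity
      have : (0:ℝ) < Q ^ 2 := hQ2p
      rw [hM]; linarith
    have hMl : V ^ 64 / 4 ≤ V ^ 36 + M := le_trans hQl hMQ
    have hT : 2 * V ^ 19 * (P + V ^ 16) ^ 2 / (V ^ 36 + M) ^ 2 ≤ 16 / V ^ 45 := by
      rw [div_le_div_iff₀ (by positivity) (by positivity)]
      have h5 : 2 * V ^ 19 * (P + V ^ 16) ^ 2 * V ^ 45 ≤ 2 * V ^ 19 * (2 * (V ^ 36 + M)) * V ^ 45 := by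
        apply mul_le_mul_of_nonneg_right _ (by positivity)
        exact mul_le_mul_of_nonneg_left hX (by positivity)
      have h6 : 2 * V ^ 19 * (2 * (V ^ 36 + M)) * V ^ 45 = 16 * ((V ^ 64 / 4) * (V ^ 36 + M)) := by ring
      have h7 : (V ^ 64 / 4) * (V ^ 36 + M) ≤ (V ^ 36 + M) * (V ^ 36 + M) :=
        mul_le_mul_of_nonneg_right hMl hN.le
      rw [h6] at h5
      refine le_trans h5 ?_
      rw [sq]
      exact mul_le_mul_of_nonneg_left h7 (by norm_num)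
    have hT2 : 8 * V ^ 10 / Q ^ 2 ≤ 32 / V ^ 54 := by
      rw [div_le_div_iff₀ (by positivity) (by positivity)]
      have h8 : 8 * V ^ 10 * V ^ 54 = 32 * (V ^ 64 / 4) := by ring
      rw [h8]
      exact mul_le_mul_of_nonneg_left hQl (by norm_num)
    have e1 : 16 / V ^ 45 ≤ 1 / 2 * (1 / V ^ 42) := by
      rw [div_le_iff₀ (by positivity)]
      have : 1 / 2 * (1 / V ^ 42) * V ^ 45 = V ^ 3 / 2 := by field_simp
      rw [this]
      have g3 : (1000000:ℝ) ≤ V ^ 3 := by simpa using dw11_pw V hV 0 3 (by norm_num)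
      linarith
    have e2 : 32 / V ^ 54 ≤ 1 / 2 * (1 / V ^ 42) := by
      rw [div_le_iff₀ (by positivity)]
      have : 1 / 2 * (1 / V ^ 42) * V ^ 54 = V ^ 12 / 2 := by field_simp
      rw [this]
      have g3 : (1000000:ℝ) ≤ V ^ 12 := by simpa using dw11_pw V hV 0 12 (by norm_num)
      linarith
    have e3 : 36 / V ^ 42 = 36 * (1 / V ^ 42) := by ring
    have e4 : 37 / V ^ 42 = 37 * (1 / V ^ 42) := by ring
    rw [e3, e4]; linarith

end Pool.Agent.DW
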