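import Pool.Agent.Helper15.DW.Rec

set_option autoImplicit false
open Filter Topology

namespace Pool.Agent.DW

/-- reaching a level in finitely many steps -/
theorem reach {S : Type*} (f : S → S) (Inv : S → Prop) (g : S → ℝ) (c b : ℝ) (hc : 0 < c)
    (h : ∀ x, Inv x → g x < b → Inv (f x) ∧ g x + c ≤ g (f x)) (x0 : S) (h0 : Inv x0) :
    ∃ n : ℕ, Inv (f^[n] x0) ∧ b ≤ g (f^[n] x0) ∧
      ∀ k < n, Inv (f^[k] x0) ∧ g (f^[k] x0) < b := by
  classical
  have hex : ∃ n : ℕ, b ≤ g (f^[n] x0) := by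
    by_contra hcon
    push Not at hcon
    have hall : ∀ n : ℕ, Inv (f^[n] x0) ∧ g x0 + n * c ≤ g (f^[n] x0) := by
      intro n
      induction n with
      | zero => simp [h0]
      | succ n ih =>
        rw [Function.iterate_succ_apply']
        obtain ⟨h1, h2⟩ := h _ ih.1 (hcon n)
        refine ⟨h1, ?_⟩
        push_cast
        linarith [ih.2]
    obtain ⟨n, hn⟩ := exists_nat_gt ((b - g x0) / c)
    have h1 := (hall n).2
    have h2 := hcon n
    rw [div_lt_iff₀ hc] at hn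
    linarith
  refine ⟨Nat.find hex, ?_, Nat.find_spec hex, ?_⟩
  · have : ∀ k ≤ Nat.find hex, Inv (f^[k] x0) := by
      intro k
      induction k with
      | zero => intro _; exact h0
      | succ k ih =>
        intro hk
        have h1 := ih (by omega)
        have h2 := Nat.find_min hex (m := k) (by omega)
        rw [Function.iterate_succ_apply']
        exact (h _ h1 (not_le.mp h2)).1
    exact this _ le_rfl
  · have : ∀ k ≤ Nat.find hex, Inv (f^[k] x0) := by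
      intro k
      induction k with
      | zero => intro _; exact h0
      | succ k ih =>
        intro hk
        have h1 := ih (by omega)
        have h2 := Nat.find_min hex (m := k) (by omega)
        rw [Function.iterate_succ_apply']
        exact (h _ h1 (not_le.mp h2)).1
    intro k hk
    exact ⟨this k hk.le, not_le.mp (Nat.find_min hex hk)⟩

/-- discrete crossing -/
theorem crossing (p : ℕ → ℝ) (A e : ℝ) (hA : 0 ≤ A) (he : e ≤ 1) (N : ℕ) (h0 : p 0 < 0)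
    (hN : 0 ≤ p N) (hstep : ∀ k < N, p (k + 1) ≤ max (p k) (-A) + e) :
    ∃ k ≤ N, 0 ≤ p k ∧ p k ≤ 1 := by
  classical
  have hex : ∃ n : ℕ, 0 ≤ p n := ⟨N, hN⟩
  have hle : Nat.find hex ≤ N := Nat.find_min' hex hN
  have hpos : Nat.find hex ≠ 0 := by
    intro h
    have := Nat.find_spec hex
    rw [h] at this
    linarith
  obtain ⟨k, hk⟩ := Nat.exists_eq_succ_of_ne_zero hpos
  refine ⟨Nat.find hex, hle, Nat.find_spec hex, ?_⟩
  have h1 := Nat.find_min hex (m := k) (by omega)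
  have h2 := hstep k (by omega)
  rw [hk]
  have h3 : max (p k) (-A) ≤ 0 := max_le (not_le.mp h1).le (by linarith)
  have : k.succ = k + 1 := rfl
  rw [this]
  linarith

def Start (n : ℕ) (x : ℝ × (Fin 2 → ℝ)) : Prop :=
  2 ≤ x.1 ∧ x.1 ≤ 3 - 1 / 2 ^ n ∧ -(3 / 2) * Vv n ^ 16 ≤ PP n x ∧ PP n x ≤ -Vv n ^ 16 / 2 ∧
    Vv n ^ 18 / 2 ≤ QQ n x ∧ QQ n x ≤ Vv n ^ 18 / 2 + 1

/-- the hypotheses of `stage_step` -/
def Good (n : ℕ) (x : ℝ × (Fin 2 → ℝ)) : Prop :=
  2 ≤ x.1 ∧ x.1 ≤ 4 ∧ -(3 / 2) * Vv n ^ 16 ≤ PP n x ∧ PP n x ≤ Vv n ^ 36 / 2 ∧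
    Vv n ^ 18 / 2 ≤ QQ n x ∧ QQ n x ≤ 3 / 2 * Vv n ^ 32

def Inv1 (n : ℕ) (m0 : ℝ) (x : ℝ × (Fin 2 → ℝ)) : Prop :=
  2 ≤ x.1 ∧ -(3 / 2) * Vv n ^ 16 ≤ PP n x ∧
    PP n x ≤ -Vv n ^ 16 / 2 + 8 / Vv n ^ 2 * (QQ n x - Vv n ^ 18 / 2) ∧
    Vv n ^ 18 / 2 ≤ QQ n x ∧ QQ n x ≤ 3 / 2 * Vv n ^ 32 ∧
    x.1 ≤ m0 + 9600 * Vv n ^ 17 * (2 / Vv n ^ 18 - 1 / QQ n x)
      + 576 / Vv n ^ 40 * (QQ n x - Vv n ^ 18 / 2)

def Inv2 (n : ℕ) (m0 : ℝ) (x : ℝ × (Fin 2 → ℝ)) : Prop :=
  2 ≤ x.1 ∧ -(3 / 2) * Vv n ^ 16 ≤ PP n x ∧ PP n x ≤ Vv n ^ 36 / 2 + 1 ∧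
    Vv n ^ 32 / 2 ≤ QQ n x ∧ QQ n x ≤ 3 / 2 * Vv n ^ 32 ∧
    x.1 ≤ m0 + 296 / Vv n ^ 38 * (PP n x + 3 / 2 * Vv n ^ 16)

lemma Vfacts (n : ℕ) : (1:ℝ) ≤ Vv n ∧ (2:ℝ)^20 ≤ Vv n ∧ 0 < Vv n :=
  ⟨le_trans (by norm_num) (le_Vv n), le_Vv n, Vv_pos n⟩

/-- `K V^a ≤ V^b` for `a < b`, `K ≤ 2^20` -/
lemma pow_gap (V K : ℝ) (a b : ℕ) (hV : (2:ℝ) ^ 20 ≤ V) (hK : K ≤ 2 ^ 20) (hab : a < b) :
    K * V ^ a ≤ V ^ b := by
  have hV1 : (1:ℝ) ≤ V := le_trans (by norm_num) hV
  have hVp : (0:ℝ) < V := by linarith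
  calc K * V ^ a ≤ V * V ^ a := by
        apply mul_le_mul_of_nonneg_right (hK.trans hV) (by positivity)
    _ = V ^ (a + 1) := by ring
    _ ≤ V ^ b := pow_le_pow_right₀ hV1 hab

lemma Inv1_bound (n : ℕ) (m0 : ℝ) (x : ℝ × (Fin 2 → ℝ)) (h : Inv1 n m0 x) :
    x.1 ≤ m0 + 19300 / Vv n := by
  obtain ⟨hV1, hV, hVp⟩ := Vfacts n
  obtain ⟨_, _, _, h4, h5, h6⟩ := h
  set V := Vv n
  have hQpos : 0 < QQ n x := lt_of_lt_of_le (by positivity) h4
  have e1 : 9600 * V ^ 17 * (2 / V ^ 18 - 1 / QQ n x) ≤ 19200 / V := by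
    have : 9600 * V ^ 17 * (2 / V ^ 18 - 1 / QQ n x) ≤ 9600 * V ^ 17 * (2 / V ^ 18) := by
      apply mul_le_mul_of_nonneg_left _ (by positivity)
      have : 0 < 1 / QQ n x := by positivity
      linarith
    refine this.trans (le_of_eq ?_)
    field_simp
    norm_num
  have e2 : 576 / V ^ 40 * (QQ n x - V ^ 18 / 2) ≤ 100 / V := by
    have h7 : 576 / V ^ 40 * (QQ n x - V ^ 18 / 2) ≤ 576 / V ^ 40 * (3 / 2 * V ^ 32) := by
      apply mul_le_mul_of_nonneg_left _ (by positivity)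
      have : 0 < V ^ 18 := by positivity
      linarith
    refine h7.trans ?_
    rw [div_mul_eq_mul_div, div_le_div_iff₀ (by positivity) (by positivity)]
    have := pow_gap V 864 33 40 hV (by norm_num) (by norm_num)
    nlinarith [pow_pos hVp 40, pow_pos hVp 33]
  have e3 : 19200 / V + 100 / V = 19300 / V := by ring
  linarith

lemma step1 (n : ℕ) (m0 : ℝ) (hm0 : m0 ≤ 3) (x : ℝ × (Fin 2 → ℝ)) (h : Inv1 n m0 x)
    (hQ : QQ n x < Vv n ^ 32 / 2) :
    Good n x ∧ Inv1 n m0 (stepR x) ∧ QQ n x + 1 / (4 * Vv n ^ 2) ≤ QQ n (stepR x) := by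
  have hb := Inv1_bound n m0 x h
  obtain ⟨hV1, hV, hVp⟩ := Vfacts n
  obtain ⟨h1, h2, h3, h4, h5, h6⟩ := h
  have hQpos : 0 < QQ n x := lt_of_lt_of_le (by positivity) h4
  set V := Vv n with hVdef
  have hm : x.1 ≤ 4 := by
    have : 19300 / V ≤ 1 := by
      rw [div_le_one hVp]
      exact le_trans (by norm_num) hV
    linarith
  have hP : PP n x ≤ V ^ 36 / 2 := by
    have : 8 / V ^ 2 * (QQ n x - V ^ 18 / 2) ≤ 4 * V ^ 30 := by
      have h7 : 8 / V ^ 2 * (QQ n x - V ^ 18 / 2) ≤ 8 / V ^ 2 * (V ^ 32 / 2) := by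
        apply mul_le_mul_of_nonneg_left _ (by positivity)
        have : 0 < V ^ 18 := by positivity
        linarith
      refine h7.trans (le_of_eq ?_)
      field_simp
      norm_num
    have h8 := pow_gap V 8 30 36 hV (by norm_num) (by norm_num)
    have : 0 < V ^ 16 := by positivity
    linarith
  have hgood : Good n x := ⟨h1, hm, h2, hP, h4, h5⟩
  obtain ⟨a1, a2, a3, a4, a5, a6, a7, a8, a9, a10⟩ := stage_step n x (by linarith) hm h2 hP h4 h5
  have a3' := a3 hQ.le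
  have hQ'pos : 0 < QQ n (stepR x) := by
    have : 0 < 1 / (4 * V ^ 2) := by positivity
    linarith
  refine ⟨hgood, ⟨?_, ?_, ?_, ?_, a1, ?_⟩, a3'⟩
  · linarith
  · refine le_trans ?_ a5
    apply le_min h2
    have : 0 < V ^ 16 := by positivity
    linarith
  · refine a6.trans ?_
    have h7 : 8 / V ^ 2 * (1 / (4 * V ^ 2)) = 2 / V ^ 4 := by
      field_simp
      norm_num
    have h8 : 8 / V ^ 2 * (QQ n x - V ^ 18 / 2) + 2 / V ^ 4
        ≤ 8 / V ^ 2 * (QQ n (stepR x) - V ^ 18 / 2) := by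
      rw [← h7, ← mul_add]
      apply mul_le_mul_of_nonneg_left _ (by positivity)
      linarith
    have h9 : 0 ≤ 8 / V ^ 2 * (QQ n x - V ^ 18 / 2) := by
      apply mul_nonneg (by positivity)
      linarith
    have h10 : max (PP n x) (-V ^ 16) ≤ -V ^ 16 / 2 + 8 / V ^ 2 * (QQ n x - V ^ 18 / 2) := by
      apply max_le h3
      have : 0 < V ^ 16 := by positivity
      linarith
    linarith
  · have : 0 < 1 / (4 * V ^ 2) := by positivity
    linarith
  · have a9' := a9 h3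
    -- 1/Q - 1/Q' ≥ 1/(8 V^2 Q^2)
    have hlow : 1 / (8 * V ^ 2 * QQ n x ^ 2) ≤ 1 / QQ n x - 1 / QQ n (stepR x) := by
      have hQ'le : QQ n (stepR x) ≤ 2 * QQ n x := by
        have : 2 / V ^ 2 ≤ QQ n x := by
          refine le_trans ?_ h4
          rw [div_le_div_iff₀ (by positivity) (by norm_num)]
          have := pow_gap V 4 0 20 hV (by norm_num) (by norm_num)
          calc (2:ℝ) * 2 = 4 * V ^ 0 := by norm_num
            _ ≤ V ^ 20 := this
            _ = V ^ 18 * V ^ 2 := by ring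
        linarith
      have e1 : 1 / QQ n x - 1 / QQ n (stepR x)
          = (QQ n (stepR x) - QQ n x) / (QQ n x * QQ n (stepR x)) := by
        field_simp
      rw [e1, div_le_div_iff₀ (by positivity) (by positivity)]
      have e2 : 1 ≤ 4 * V ^ 2 * (QQ n (stepR x) - QQ n x) := by
        have : 1 / (4 * V ^ 2) ≤ QQ n (stepR x) - QQ n x := by linarith
        rw [div_le_iff₀ (by positivity)] at this
        linarith
      calc 1 * (QQ n x * QQ n (stepR x)) ≤ QQ n x * (2 * QQ n x) := by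
            rw [one_mul]; exact mul_le_mul_of_nonneg_left hQ'le hQpos.le
        _ = 1 * (2 * QQ n x ^ 2) := by ring
        _ ≤ (4 * V ^ 2 * (QQ n (stepR x) - QQ n x)) * (2 * QQ n x ^ 2) :=
            mul_le_mul_of_nonneg_right e2 (by positivity)
        _ = (QQ n (stepR x) - QQ n x) * (8 * V ^ 2 * QQ n x ^ 2) := by ring
    have e3 : 9600 * V ^ 17 * (1 / (8 * V ^ 2 * QQ n x ^ 2)) = 4 * (300 * V ^ 15 / QQ n x ^ 2) := by
      field_simp
      norm_num
    have e4 : 576 / V ^ 40 * (1 / (4 * V ^ 2)) = 4 * (36 / V ^ 42) := by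
      field_simp
      norm_num
    have e5 : 9600 * V ^ 17 * (1 / (8 * V ^ 2 * QQ n x ^ 2))
        ≤ 9600 * V ^ 17 * (1 / QQ n x - 1 / QQ n (stepR x)) :=
      mul_le_mul_of_nonneg_left hlow (by positivity)
    have e6 : 576 / V ^ 40 * (1 / (4 * V ^ 2)) ≤ 576 / V ^ 40 * (QQ n (stepR x) - QQ n x) := by
      apply mul_le_mul_of_nonneg_left _ (by positivity)
      linarith
    rw [e3] at e5
    rw [e4] at e6
    have e7 : m0 + 9600 * V ^ 17 * (2 / V ^ 18 - 1 / QQ n (stepR x))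
        + 576 / V ^ 40 * (QQ n (stepR x) - V ^ 18 / 2)
        = (m0 + 9600 * V ^ 17 * (2 / V ^ 18 - 1 / QQ n x)
        + 576 / V ^ 40 * (QQ n x - V ^ 18 / 2))
        + 9600 * V ^ 17 * (1 / QQ n x - 1 / QQ n (stepR x))
        + 576 / V ^ 40 * (QQ n (stepR x) - QQ n x) := by ring
    rw [e7]
    linarith

lemma Inv2_bound (n : ℕ) (m0 : ℝ) (x : ℝ × (Fin 2 → ℝ)) (h : Inv2 n m0 x) :
    x.1 ≤ m0 + 300 / Vv n := by
  obtain ⟨hV1, hV, hVp⟩ := Vfacts n
  obtain ⟨_, h2, h3, _, _, h6⟩ := h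
  set V := Vv n
  have e2 : 296 / V ^ 38 * (PP n x + 3 / 2 * V ^ 16) ≤ 300 / V := by
    have h7 : 296 / V ^ 38 * (PP n x + 3 / 2 * V ^ 16) ≤ 296 / V ^ 38 * V ^ 36 := by
      apply mul_le_mul_of_nonneg_left _ (by positivity)
      have h8 := pow_gap V 8 16 36 hV (by norm_num) (by norm_num)
      have h9 := pow_gap V 8 0 36 hV (by norm_num) (by norm_num)
      simp only [pow_zero, mul_one] at h9
      linarith
    refine h7.trans ?_
    rw [div_mul_eq_mul_div, div_le_div_iff₀ (by positivity) (by positivity)]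
    have h8 := pow_gap V 1 37 38 hV (by norm_num) (by norm_num)
    have : V ^ 36 * V = V ^ 37 := by ring
    nlinarith [pow_pos hVp 38, pow_pos hVp 37]
  linarith

lemma step2 (n : ℕ) (m0 : ℝ) (hm0 : m0 ≤ 7 / 2) (x : ℝ × (Fin 2 → ℝ)) (h : Inv2 n m0 x)
    (hP : PP n x < Vv n ^ 36 / 2) :
    Good n x ∧ Inv2 n m0 (stepR x) ∧ PP n x + 1 / (2 * Vv n ^ 4) ≤ PP n (stepR x) := by
  have hb := Inv2_bound n m0 x h
  obtain ⟨hV1, hV, hVp⟩ := Vfacts n
  obtain ⟨h1, h2, h3, h4, h5, h6⟩ := h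
  set V := Vv n with hVdef
  have hm : x.1 ≤ 4 := by
    have : 300 / V ≤ 1 / 2 := by
      rw [div_le_div_iff₀ hVp (by norm_num)]
      have : (2:ℝ) ^ 20 = 1048576 := by norm_num
      linarith
    linarith
  have hQ4 : V ^ 18 / 2 ≤ QQ n x := by
    refine le_trans ?_ h4
    have := pow_le_pow_right₀ hV1 (show 18 ≤ 32 by norm_num)
    linarith
  have hgood : Good n x := ⟨h1, hm, h2, hP.le, hQ4, h5⟩
  obtain ⟨a1, a2, a3, a4, a5, a6, a7, a8, a9, a10⟩ :=
    stage_step n x (by linarith) hm h2 hP.le hQ4 h5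
  have a7' := a7 h4
  refine ⟨hgood, ⟨?_, ?_, ?_, a4 h4, a1, ?_⟩, a7'⟩
  · linarith
  · refine le_trans ?_ a5
    apply le_min h2
    have : 0 < V ^ 16 := by positivity
    linarith
  · refine a6.trans ?_
    have h7 : 2 / V ^ 4 ≤ 1 := by
      rw [div_le_one (by positivity)]
      have h9 := pow_gap V 2 0 4 hV (by norm_num) (by norm_num)
      simpa using h9
    have h10 : max (PP n x) (-V ^ 16) ≤ V ^ 36 / 2 := by
      apply max_le hP.le
      have : 0 < V ^ 16 := by positivity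
      have : 0 < V ^ 36 := by positivity
      linarith
    linarith
  · have a10' := a10 h4
    have e4 : 296 / V ^ 38 * (1 / (2 * V ^ 4)) = 4 * (37 / V ^ 42) := by
      field_simp
      norm_num
    have e6 : 296 / V ^ 38 * (1 / (2 * V ^ 4)) ≤ 296 / V ^ 38 * (PP n (stepR x) - PP n x) := by
      apply mul_le_mul_of_nonneg_left _ (by positivity)
      linarith
    rw [e4] at e6
    have e7 : m0 + 296 / V ^ 38 * (PP n (stepR x) + 3 / 2 * V ^ 16)
        = (m0 + 296 / V ^ 38 * (PP n x + 3 / 2 * V ^ 16))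
          + 296 / V ^ 38 * (PP n (stepR x) - PP n x) := by ring
    rw [e7]
    linarith

lemma two_pow_le_Vv (n : ℕ) : (40000 : ℝ) * 2 ^ n ≤ Vv n := by
  unfold Vv
  have h1 : n + 1 ≤ 2 ^ n := Nat.lt_two_pow_self
  have h2 : 16 + n ≤ 20 * 2 ^ n := by omega
  calc (40000 : ℝ) * 2 ^ n ≤ 2 ^ 16 * 2 ^ n := by
        apply mul_le_mul_of_nonneg_right (by norm_num) (by positivity)
    _ = 2 ^ (16 + n) := by rw [pow_add]
    _ ≤ 2 ^ (20 * 2 ^ n) := pow_le_pow_right₀ (by norm_num) h2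

theorem stage (n : ℕ) (x : ℝ × (Fin 2 → ℝ)) (h : Start n x) :
    ∃ N : ℕ, 0 < N ∧ Start (n + 1) (stepR^[N] x) ∧
      ∃ k ≤ N, |(stepR^[k] x).2 (par n)| ≤ 1 ∧ (stepR^[k] x).1 ≤ 4 := by
  obtain ⟨hV1, hV, hVp⟩ := Vfacts n
  obtain ⟨h1, h2, h3, h4, h5, h6⟩ := h
  have hnn : (0:ℝ) < 1 / 2 ^ n := by positivity
  have hm0 : x.1 ≤ 3 := by linarith
  -- phase 1
  have hI1 : Inv1 n x.1 x := by
    refine ⟨h1, h3, ?_, h5, ?_, ?_⟩
    · have : 0 ≤ 8 / Vv n ^ 2 * (QQ n x - Vv n ^ 18 / 2) := by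
        apply mul_nonneg (by positivity); linarith
      linarith
    · have h8 := pow_gap (Vv n) 8 18 32 hV (by norm_num) (by norm_num)
      have h9 := pow_gap (Vv n) 8 0 32 hV (by norm_num) (by norm_num)
      simp only [pow_zero, mul_one] at h9
      have : 0 < Vv n ^ 32 := by positivity
      linarith
    · have e1 : 0 ≤ 576 / Vv n ^ 40 * (QQ n x - Vv n ^ 18 / 2) := by
        apply mul_nonneg (by positivity); linarith
      have e2 : 1 / QQ n x ≤ 2 / Vv n ^ 18 := by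
        rw [div_le_div_iff₀ (lt_of_lt_of_le (by positivity) h5) (by positivity)]
        linarith
      have e3 : 0 ≤ 9600 * Vv n ^ 17 * (2 / Vv n ^ 18 - 1 / QQ n x) := by
        apply mul_nonneg (by positivity); linarith
      linarith
  obtain ⟨N1, hN1a, hN1b, hN1c⟩ := reach stepR (Inv1 n x.1) (QQ n) (1 / (4 * Vv n ^ 2))
    (Vv n ^ 32 / 2) (by positivity) (fun y hy hy2 => (step1 n x.1 hm0 y hy hy2).2) x hI1
  set y := stepR^[N1] x with hy
  have hyb := Inv1_bound n x.1 y hN1a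
  obtain ⟨g1, g2, g3, g4, g5, g6⟩ := hN1a
  have hV19 : 19300 / Vv n ≤ 1 / 2 := by
    rw [div_le_div_iff₀ hVp (by norm_num)]
    have : (2:ℝ) ^ 20 = 1048576 := by norm_num
    linarith
  have hI2 : Inv2 n y.1 y := by
    refine ⟨g1, g2, ?_, hN1b, g5, ?_⟩
    · have : 8 / Vv n ^ 2 * (QQ n y - Vv n ^ 18 / 2) ≤ 12 * Vv n ^ 30 := by
        have h7 : 8 / Vv n ^ 2 * (QQ n y - Vv n ^ 18 / 2) ≤ 8 / Vv n ^ 2 * (3 / 2 * Vv n ^ 32) := by
          apply mul_le_mul_of_nonneg_left _ (by positivity)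
          have : 0 < Vv n ^ 18 := by positivity
          linarith
        refine h7.trans (le_of_eq ?_)
        field_simp
        norm_num
      have h8 := pow_gap (Vv n) 24 30 36 hV (by norm_num) (by norm_num)
      have : 0 < Vv n ^ 16 := by positivity
      linarith
    · have : 0 ≤ 296 / Vv n ^ 38 * (PP n y + 3 / 2 * Vv n ^ 16) := by
        apply mul_nonneg (by positivity); linarith
      linarith
  obtain ⟨N2, hN2a, hN2b, hN2c⟩ := reach stepR (Inv2 n y.1) (PP n) (1 / (2 * Vv n ^ 4))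
    (Vv n ^ 36 / 2) (by positivity)
    (fun z hz hz2 => (step2 n y.1 (by linarith) z hz hz2).2) y hI2
  have hcomb : ∀ k, stepR^[k] y = stepR^[k + N1] x := by
    intro k; rw [hy, ← Function.iterate_add_apply]
  rw [hcomb] at hN2a hN2b
  have hgood : ∀ k < N2 + N1, Good n (stepR^[k] x) := by
    intro k hk
    by_cases hk1 : k < N1
    · obtain ⟨q1, q2⟩ := hN1c k hk1
      exact (step1 n x.1 hm0 _ q1 q2).1
    · have hk2 : k - N1 < N2 := by omega
      obtain ⟨q1, q2⟩ := hN2c (k - N1) hk2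
      have := (step2 n y.1 (by linarith) _ q1 q2).1
      rw [hcomb, Nat.sub_add_cancel (by omega)] at this
      exact this
  have hfinb := Inv2_bound n y.1 _ hN2a
  obtain ⟨f1, f2, f3, f4, f5, f6⟩ := hN2a
  refine ⟨N2 + N1, ?_, ?_, ?_⟩
  · -- positive number of steps, since P < 0 at the start and > 0 at the end
    by_contra hcon
    have h0 : N2 + N1 = 0 := by omega
    rw [h0] at hN2b
    simp only [Function.iterate_zero, id_eq] at hN2b
    have : 0 < Vv n ^ 36 := by positivity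
    have : 0 < Vv n ^ 16 := by positivity
    linarith
  · have hV' : Vv (n + 1) = Vv n ^ 2 := Vv_succ n
    have hPP : PP (n + 1) (stepR^[N2 + N1] x) = - QQ n (stepR^[N2 + N1] x) := by
      unfold PP QQ
      rw [show n + 1 + 2 = (n + 1) + 2 from rfl, sg_add_two]
      ring
    have hQQ : QQ (n + 1) (stepR^[N2 + N1] x) = PP n (stepR^[N2 + N1] x) := by
      unfold PP QQ
      rw [show n + 1 + 1 = n + 2 from rfl, par_add_two]
    refine ⟨f1, ?_, ?_, ?_, ?_, ?_⟩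
    · have e1 : 19300 / Vv n + 300 / Vv n ≤ 1 / 2 ^ (n + 1) := by
        rw [← add_div, div_le_div_iff₀ hVp (by positivity)]
        have := two_pow_le_Vv n
        rw [pow_succ]
        linarith
      have e2 : (1:ℝ) / 2 ^ n = 1 / 2 ^ (n + 1) + 1 / 2 ^ (n + 1) := by
        rw [pow_succ]; field_simp; norm_num
      linarith
    · rw [hPP, hV', ← pow_mul]; norm_num; linarith
    · rw [hPP, hV', ← pow_mul]; norm_num; linarith
    · rw [hQQ, hV', ← pow_mul]; norm_num; linarith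
    · rw [hQQ, hV', ← pow_mul]; norm_num; linarith
  · have hcr := crossing (fun k => PP n (stepR^[k] x)) (Vv n ^ 16) (2 / Vv n ^ 4) (by positivity)
      (by
        rw [div_le_one (by positivity)]
        have h9 := pow_gap (Vv n) 2 0 4 hV (by norm_num) (by norm_num)
        simpa using h9) (N2 + N1)
      (by
        simp only [Function.iterate_zero, id_eq]
        have : 0 < Vv n ^ 16 := by positivity
        linarith)
      (by
        have : 0 < Vv n ^ 36 := by positivity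
        show 0 ≤ PP n (stepR^[N2 + N1] x)
        linarith)
      (by
        intro k hk
        obtain ⟨q1, q2, q3, q4, q5, q6⟩ := hgood k hk
        show PP n (stepR^[k + 1] x) ≤ _
        rw [Function.iterate_succ_apply']
        exact (stage_step n _ (by linarith) q2 q3 q4 q5 q6).2.2.2.2.2.1)
    obtain ⟨k, hk, hk1, hk2⟩ := hcr
    refine ⟨k, hk, ?_, ?_⟩
    · rw [abs_PP, abs_of_nonneg hk1]; exact hk2
    · rcases hk.lt_or_eq with h | h
      · exact (hgood k h).2.1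
      · rw [h]
        have : 300 / Vv n ≤ 1 / 2 := by
          rw [div_le_div_iff₀ hVp (by norm_num)]
          have : (2:ℝ) ^ 20 = 1048576 := by norm_num
          linarith
        linarith

theorem start_zero : Start 0 xR := by
  obtain ⟨hV1, hV, hVp⟩ := Vfacts 0
  have hp0 : par 0 = 0 := rfl
  have hp1 : par (0 + 1) = 1 := rfl
  have hPP : PP 0 xR = - Vv 0 ^ 16 := by
    unfold PP xR SS
    rw [hp0]
    simp [sg]
  have hQQ : QQ 0 xR = Vv 0 ^ 18 / 2 := by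
    unfold QQ xR SS
    rw [hp1]
    simp [sg]
  refine ⟨?_, ?_, ?_, ?_, ?_, ?_⟩
  · simp [xR]
  · simp [xR]; norm_num
  · rw [hPP]
    have : 0 < Vv 0 ^ 16 := by positivity
    linarith
  · rw [hPP]
    have : 0 < Vv 0 ^ 16 := by positivity
    linarith
  · rw [hQQ]
  · rw [hQQ]; linarith

theorem starts (n : ℕ) : ∃ T : ℕ, n ≤ T ∧ Start n (stepR^[T] xR) := by
  induction n with
  | zero => exact ⟨0, le_rfl, start_zero⟩
  | succ n ih =>
    obtain ⟨T, hT, hs⟩ := ih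
    obtain ⟨N, hN, hs', _⟩ := stage n _ hs
    refine ⟨N + T, by omega, ?_⟩
    rw [Function.iterate_add_apply]
    exact hs'

theorem real_recur' (i : Fin 2) (T : ℕ) :
    ∃ t ≥ T, |(stepR^[t] xR).2 i| ≤ 1 ∧ (stepR^[t] xR).1 ≤ 4 := by
  obtain ⟨n, hn, hpn⟩ : ∃ n ≥ T, par n = i := by
    rcases par_cases T with ⟨h1, h2⟩ | ⟨h1, h2⟩
    · fin_cases i
      · exact ⟨T, le_rfl, h1⟩
      · exact ⟨T + 1, by omega, h2⟩
    · fin_cases i
      · exact ⟨T + 1, by omega, h2⟩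
      · exact ⟨T, le_rfl, h1⟩
  obtain ⟨T', hT', hs⟩ := starts n
  obtain ⟨N, hN, _, k, hk, hk1, hk2⟩ := stage n _ hs
  refine ⟨k + T', by omega, ?_, ?_⟩
  · rw [Function.iterate_add_apply, ← hpn]; exact hk1
  · rw [Function.iterate_add_apply]; exact hk2

end Pool.Agent.DW
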