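import Pool.Agent.Helper15.DW.Tails
import Pool.Agent.Helper15.DW.OneStep

set_option autoImplicit false
open Filter Topology

namespace Pool.Agent.DW

noncomputable def PP (n : ℕ) (x : ℝ × (Fin 2 → ℝ)) : ℝ := sg (n + 2) * x.2 (par n)
noncomputable def QQ (n : ℕ) (x : ℝ × (Fin 2 → ℝ)) : ℝ := sg (n + 1) * x.2 (par (n + 1))

lemma sg_sq' (j : ℕ) : sg j ^ 2 = 1 := by
  unfold sg
  rw [← pow_mul, mul_comm, pow_mul]
  norm_num

lemma par_add_two (n : ℕ) : par (n + 2) = par n := by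
  simp [par]

lemma par_cases (n : ℕ) : (par n = 0 ∧ par (n + 1) = 1) ∨ (par n = 1 ∧ par (n + 1) = 0) := by
  rcases Nat.even_or_odd n with h | h
  · left
    have h1 : n % 2 = 0 := Nat.even_iff.mp h
    have h2 : (n + 1) % 2 = 1 := by omega
    constructor <;> (unfold par; ext; simp [h1, h2])
  · right
    have h1 : n % 2 = 1 := Nat.odd_iff.mp h
    have h2 : (n + 1) % 2 = 0 := by omega
    constructor <;> (unfold par; ext; simp [h1, h2])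

lemma PP_sq (n : ℕ) (x : ℝ × (Fin 2 → ℝ)) : PP n x ^ 2 = x.2 (par n) ^ 2 := by
  unfold PP; rw [mul_pow, sg_sq', one_mul]

lemma QQ_sq (n : ℕ) (x : ℝ × (Fin 2 → ℝ)) : QQ n x ^ 2 = x.2 (par (n + 1)) ^ 2 := by
  unfold QQ; rw [mul_pow, sg_sq', one_mul]

lemma abs_PP (n : ℕ) (x : ℝ × (Fin 2 → ℝ)) : |x.2 (par n)| = |PP n x| := by
  rw [← sq_eq_sq₀ (abs_nonneg _) (abs_nonneg _), sq_abs, sq_abs, PP_sq]

lemma abs_QQ (n : ℕ) (x : ℝ × (Fin 2 → ℝ)) : |x.2 (par (n + 1))| = |QQ n x| := by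
  rw [← sq_eq_sq₀ (abs_nonneg _) (abs_nonneg _), sq_abs, sq_abs, QQ_sq]

lemma MM_eq (n : ℕ) (x : ℝ × (Fin 2 → ℝ)) :
    MM x.1 x.2 = x.1 + PP n x ^ 2 + QQ n x ^ 2 := by
  rw [PP_sq, QQ_sq]
  unfold MM
  rcases par_cases n with ⟨h1, h2⟩ | ⟨h1, h2⟩
  · rw [h1, h2]
  · rw [h1, h2]; ring

lemma Vv_pos (n : ℕ) : 0 < Vv n := by unfold Vv; positivity

lemma PP_step (n : ℕ) (x : ℝ × (Fin 2 → ℝ)) (e : ℝ)
    (he : e = sg (n + 2) * ((∑' j : ℕ, (if par j = par n then dr j x.1 x.2 else 0))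
      - dr n x.1 x.2 - dr (n + 2) x.1 x.2)) :
    PP n (stepR x) = PP n x + 1 / Vv n ^ 17 * (Vv n ^ 36 / (Vv n ^ 36 +
      (x.1 + PP n x ^ 2 + QQ n x ^ 2))) * (-Vv n ^ 16 - PP n x)
      + 1 / Vv n ^ 68 * (Vv n ^ 144 / (Vv n ^ 144 + (x.1 + PP n x ^ 2 + QQ n x ^ 2)))
        * (Vv n ^ 64 - PP n x) + e := by
  have hV2 : Vv (n + 2) = Vv n ^ 4 := by
    rw [show n + 2 = (n + 1) + 1 from rfl, Vv_succ, Vv_succ]; ring
  have hsgn : sg n = - sg (n + 2) := by rw [sg_add_two]; ring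
  have hs2 : sg (n + 2) * sg (n + 2) = 1 := by rw [← sq, sg_sq']
  have h1 : sg (n + 2) * dr n x.1 x.2 = 1 / Vv n ^ 17 * (Vv n ^ 36 / (Vv n ^ 36 +
      (x.1 + PP n x ^ 2 + QQ n x ^ 2))) * (-Vv n ^ 16 - PP n x) := by
    unfold dr dl LL SS
    rw [MM_eq n x, hsgn]
    have : -Vv n ^ 16 - PP n x = sg (n + 2) * (-sg (n + 2) * Vv n ^ 16 - x.2 (par n)) := by
      unfold PP
      linear_combination (Vv n ^ 16) * (hs2)
    rw [this]; ring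
  have h2 : sg (n + 2) * dr (n + 2) x.1 x.2 = 1 / Vv n ^ 68 * (Vv n ^ 144 / (Vv n ^ 144 +
      (x.1 + PP n x ^ 2 + QQ n x ^ 2))) * (Vv n ^ 64 - PP n x) := by
    unfold dr dl LL SS
    rw [MM_eq n x, hV2, par_add_two]
    have : Vv n ^ 64 - PP n x = sg (n + 2) * (sg (n + 2) * (Vv n ^ 4) ^ 16 - x.2 (par n)) := by
      unfold PP
      linear_combination (-Vv n ^ 64) * (hs2)
    rw [this]
    rw [← pow_mul, ← pow_mul, ← pow_mul]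
    norm_num
    ring
  rw [he, ← h1, ← h2]
  unfold PP stepR
  simp only
  ring

lemma QQ_step (n : ℕ) (x : ℝ × (Fin 2 → ℝ)) (e : ℝ)
    (he : e = sg (n + 1) * ((∑' j : ℕ, (if par j = par (n + 1) then dr j x.1 x.2 else 0))
      - dr (n + 1) x.1 x.2)) :
    QQ n (stepR x) = QQ n x + 1 / Vv n ^ 34 * (Vv n ^ 72 / (Vv n ^ 72 +
      (x.1 + PP n x ^ 2 + QQ n x ^ 2))) * (Vv n ^ 32 - QQ n x) + e := by
  have hV1 : Vv (n + 1) = Vv n ^ 2 := Vv_succ n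
  have hs2 : sg (n + 1) * sg (n + 1) = 1 := by rw [← sq, sg_sq']
  have h2 : sg (n + 1) * dr (n + 1) x.1 x.2 = 1 / Vv n ^ 34 * (Vv n ^ 72 / (Vv n ^ 72 +
      (x.1 + PP n x ^ 2 + QQ n x ^ 2))) * (Vv n ^ 32 - QQ n x) := by
    unfold dr dl LL SS
    rw [MM_eq n x, hV1]
    have : Vv n ^ 32 - QQ n x = sg (n + 1) * (sg (n + 1) * (Vv n ^ 2) ^ 16 - x.2 (par (n + 1))) := by
      unfold QQ
      linear_combination (-Vv n ^ 32) * (hs2)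
    rw [this]
    rw [← pow_mul, ← pow_mul, ← pow_mul]
    norm_num
    ring
  rw [he, ← h2]
  unfold QQ stepR
  simp only
  ring

lemma abs_sg (j : ℕ) : |sg j| = 1 := by
  have := sg_sq' j
  rw [← sq_abs] at this
  nlinarith [abs_nonneg (sg j)]

theorem stage_step (n : ℕ) (x : ℝ × (Fin 2 → ℝ)) (hm1 : 0 < x.1) (hm : x.1 ≤ 4)
    (hP1 : -(3 / 2) * Vv n ^ 16 ≤ PP n x) (hP2 : PP n x ≤ Vv n ^ 36 / 2)
    (hQ1 : Vv n ^ 18 / 2 ≤ QQ n x) (hQ2 : QQ n x ≤ 3 / 2 * Vv n ^ 32) :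
    QQ n (stepR x) ≤ 3 / 2 * Vv n ^ 32 ∧ QQ n (stepR x) ≤ QQ n x + 2 / Vv n ^ 2 ∧
    (QQ n x ≤ Vv n ^ 32 / 2 → QQ n x + 1 / (4 * Vv n ^ 2) ≤ QQ n (stepR x)) ∧
    (Vv n ^ 32 / 2 ≤ QQ n x → Vv n ^ 32 / 2 ≤ QQ n (stepR x)) ∧
    min (PP n x) (-Vv n ^ 16) ≤ PP n (stepR x) ∧
    PP n (stepR x) ≤ max (PP n x) (-Vv n ^ 16) + 2 / Vv n ^ 4 ∧
    (Vv n ^ 32 / 2 ≤ QQ n x → PP n x + 1 / (2 * Vv n ^ 4) ≤ PP n (stepR x)) ∧
    x.1 ≤ (stepR x).1 ∧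
    (PP n x ≤ -Vv n ^ 16 / 2 + 8 / Vv n ^ 2 * (QQ n x - Vv n ^ 18 / 2) →
      (stepR x).1 ≤ x.1 + 4 * (300 * Vv n ^ 15 / QQ n x ^ 2 + 36 / Vv n ^ 42)) ∧
    (Vv n ^ 32 / 2 ≤ QQ n x → (stepR x).1 ≤ x.1 + 4 * (37 / Vv n ^ 42)) := by
  have hV := le_Vv n
  have hVpos := Vv_pos n
  set V := Vv n with hVdef
  have hV1 : (1:ℝ) ≤ V := le_trans (by norm_num) hV
  have hQpos : 0 < QQ n x := lt_of_lt_of_le (by positivity) hQ1
  have h36 : V ^ 36 ≤ V ^ 37 := pow_le_pow_right₀ hV1 (by norm_num)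
  have h16 : V ^ 16 ≤ V ^ 36 := pow_le_pow_right₀ hV1 (by norm_num)
  have h1637 : 2 * V ^ 16 ≤ V ^ 37 := by
    have : V ^ 37 = V ^ 16 * V ^ 21 := by ring
    rw [this]
    have h21 : 2 ≤ V ^ 21 := by
      calc (2:ℝ) ≤ V := le_trans (by norm_num) hV
        _ = V ^ 1 := (pow_one V).symm
        _ ≤ V ^ 21 := pow_le_pow_right₀ hV1 (by norm_num)
    nlinarith [pow_pos hVpos 16]
  have h3237 : 3 / 2 * V ^ 32 ≤ V ^ 37 := by
    have : V ^ 37 = V ^ 32 * V ^ 5 := by ring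
    rw [this]
    have h21 : 2 ≤ V ^ 5 := by
      calc (2:ℝ) ≤ V := le_trans (by norm_num) hV
        _ = V ^ 1 := (pow_one V).symm
        _ ≤ V ^ 5 := pow_le_pow_right₀ hV1 (by norm_num)
    nlinarith [pow_pos hVpos 32]
  have hPabs : |x.2 (par n)| ≤ V ^ 37 := by
    rw [abs_PP, abs_le]
    constructor
    · nlinarith [pow_pos hVpos 16]
    · nlinarith [pow_pos hVpos 36]
  have hQabs : |x.2 (par (n + 1))| = QQ n x := by rw [abs_QQ, abs_of_pos hQpos]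
  have hWall : ∀ i, |x.2 i| ≤ V ^ 37 := by
    intro i
    rcases par_cases n with ⟨h1, h2⟩ | ⟨h1, h2⟩
    · rw [h1] at hPabs; rw [h2] at hQabs
      fin_cases i
      · exact hPabs
      · show |x.2 1| ≤ _
        rw [hQabs]; linarith
    · rw [h1] at hPabs; rw [h2] at hQabs
      fin_cases i
      · show |x.2 0| ≤ _
        rw [hQabs]; linarith
      · exact hPabs
  obtain ⟨_, hd1, hd2⟩ := others_drift n x.1 x.2 hm1 (by rw [hQabs]; exact hQ1) hWall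
  obtain ⟨hsumm, hE⟩ := others_energy n x.1 x.2 hm1 (by rw [hQabs]; exact hQ1)
    (by rw [hQabs]; exact hQ2) hPabs
  rw [← QQ_sq n x] at hE
  have he1 : |sg (n + 2) * ((∑' j : ℕ, (if par j = par n then dr j x.1 x.2 else 0))
      - dr n x.1 x.2 - dr (n + 2) x.1 x.2)| ≤ 8 / V ^ 8 := by
    rw [abs_mul, abs_sg, one_mul]; exact hd1
  have he2 : |sg (n + 1) * ((∑' j : ℕ, (if par j = par (n + 1) then dr j x.1 x.2 else 0))
      - dr (n + 1) x.1 x.2)| ≤ 8 / V ^ 8 := by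
    rw [abs_mul, abs_sg, one_mul]; exact hd2
  obtain ⟨a1, a2, a3, a4, a5, a6, a7⟩ := one_step V x.1 (PP n x) (QQ n x) (PP n (stepR x))
    (QQ n (stepR x)) _ _ hV hm1 hm hP1 hP2 hQ1 hQ2 he1 he2 (PP_step n x _ rfl) (QQ_step n x _ rfl)
  have hen : en n x.1 x.2 = 2 * V ^ 19 * (PP n x + V ^ 16) ^ 2 /
      (V ^ 36 + (x.1 + PP n x ^ 2 + QQ n x ^ 2)) ^ 2 := by
    unfold en dl LL SS
    rw [MM_eq n x, ← hVdef]
    have hsgn : sg n = - sg (n + 2) := by rw [sg_add_two]; ring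
    have : (x.2 (par n) - sg n * V ^ 16) ^ 2 = (PP n x + V ^ 16) ^ 2 := by
      rw [hsgn]
      unfold PP
      have hs2 : sg (n + 2) ^ 2 = 1 := sg_sq' _
      linear_combination (V ^ 32 - (x.2 (par n)) ^ 2) * hs2
    rw [this]
    have h19 : 2 * (1 / V ^ 17) * V ^ 36 = 2 * V ^ 19 := by
      field_simp
    rw [h19]
  have hE0 : 0 ≤ ∑' j : ℕ, en j x.1 x.2 := by
    apply tsum_nonneg
    intro j
    unfold en dl LL
    have := Vv_pos j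
    positivity
  have hm' : (stepR x).1 = x.1 + x.1 * ∑' j : ℕ, en j x.1 x.2 := by
    unfold stepR; simp only; ring
  have hm'' : (stepR x).1 ≤ x.1 + 4 * ∑' j : ℕ, en j x.1 x.2 := by
    rw [hm']; nlinarith
  obtain ⟨c1, c2⟩ := one_cost V x.1 (PP n x) (QQ n x) hV hm1 hP1 hQ1
  rw [hen] at hE
  refine ⟨a1, a2, a3, a4, a5, a6, a7, ?_, ?_, ?_⟩
  · rw [hm']; nlinarith
  · intro h; have := c1 h; linarith
  · intro h; have := c2 h; linarith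

end Pool.Agent.DW
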