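import Pool.Agent.Helper15.DW.Defs

/-!
# Packet DW10: drift and energy of all but three fields
-/

set_option autoImplicit false
open Filter Topology

namespace Pool.Agent.DW

theorem Vv_succ (j : ℕ) : Vv (j + 1) = Vv j ^ 2 := by
  unfold Vv
  rw [← pow_mul, pow_succ 2 j, mul_assoc]

theorem le_Vv (j : ℕ) : (2:ℝ) ^ 20 ≤ Vv j := by
  unfold Vv
  refine pow_le_pow_right₀ (by norm_num) ?_
  have := Nat.one_le_two_pow (n := j)
  omega

theorem sg_add_two (j : ℕ) : sg (j + 2) = - sg j := by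
  unfold sg
  rw [Nat.add_div_right _ (by norm_num : 0 < 2), pow_succ]
  ring

theorem sg_sq (j : ℕ) : sg j * sg j = 1 := by
  unfold sg
  rw [← mul_pow]
  norm_num

/-! ### auxiliary facts -/

private theorem Vpos (j : ℕ) : 0 < Vv j := lt_of_lt_of_le (by norm_num) (le_Vv j)

private theorem one_le_V (j : ℕ) : 1 ≤ Vv j := le_trans (by norm_num) (le_Vv j)

private theorem two_le_V (j : ℕ) : 2 ≤ Vv j := le_trans (by norm_num) (le_Vv j)

private theorem V_step (j : ℕ) : 2 * Vv j ≤ Vv (j + 1) := by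
  rw [Vv_succ]
  nlinarith [two_le_V j]

private theorem V_geo (k N : ℕ) : 2 ^ k * Vv N ≤ Vv (k + N) := by
  induction k with
  | zero => simp
  | succ k ih =>
    have h := V_step (k + N)
    have e : k + 1 + N = k + N + 1 := by ring
    rw [e, pow_succ]
    linarith

private theorem V_mono {j k : ℕ} (h : j ≤ k) : Vv j ≤ Vv k := by
  unfold Vv
  refine pow_le_pow_right₀ (by norm_num) ?_
  exact Nat.mul_le_mul_left _ (Nat.pow_le_pow_right (by norm_num) h)

private theorem V_sq_le {j n : ℕ} (h : j < n) : Vv j ^ 2 ≤ Vv n := by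
  rw [← Vv_succ]
  exact V_mono h

private theorem V_add (n k : ℕ) : Vv (n + k) = Vv n ^ (2 ^ k) := by
  unfold Vv
  rw [← pow_mul, pow_add, mul_assoc]

private theorem abs_sg (j : ℕ) : |sg j| = 1 := by
  have h := sg_sq j
  rw [← abs_mul_abs_self] at h
  nlinarith [abs_nonneg (sg j)]

private theorem abs_SS (j : ℕ) : |SS j| = Vv j ^ 16 := by
  unfold SS
  rw [abs_mul, abs_sg, one_mul, abs_of_pos (pow_pos (Vpos j) _)]

private theorem par_add_two (n : ℕ) : par (n + 2) = par n := by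
  unfold par
  ext
  simp

private theorem par_succ_ne (n : ℕ) : par (n + 1) ≠ par n := by
  unfold par
  intro h
  have h1 : (n + 1) % 2 = n % 2 := by
    simpa [Fin.ext_iff] using h
  omega

private theorem par_cases (n : ℕ) (i : Fin 2) : i = par n ∨ i = par (n + 1) := by
  have h1 : (i : ℕ) < 2 := i.2
  have h2 : n % 2 < 2 := Nat.mod_lt _ (by norm_num)
  by_cases h : (i : ℕ) = n % 2
  · left; ext; simpa [par] using h
  · right; ext; simp only [par]; omega

private theorem tail_sum (N p : ℕ) (hp : 1 ≤ p) :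
    (Summable fun k : ℕ => 1 / Vv (k + N) ^ p) ∧ ∑' k : ℕ, 1 / Vv (k + N) ^ p ≤ 2 / Vv N ^ p := by
  have hle : ∀ k : ℕ, 1 / Vv (k + N) ^ p ≤ (1 / 2 : ℝ) ^ k * (1 / Vv N ^ p) := by
    intro k
    have h1 : (2 : ℝ) ^ k * Vv N ^ p ≤ Vv (k + N) ^ p := by
      calc (2 : ℝ) ^ k * Vv N ^ p ≤ ((2 : ℝ) ^ k) ^ p * Vv N ^ p := by
            refine mul_le_mul_of_nonneg_right ?_ (pow_nonneg (Vpos N).le _)
            exact le_self_pow₀ (one_le_pow₀ (by norm_num)) (by omega)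
        _ = (2 ^ k * Vv N) ^ p := by rw [mul_pow]
        _ ≤ Vv (k + N) ^ p :=
            pow_le_pow_left₀ (mul_nonneg (by positivity) (Vpos N).le) (V_geo k N) _
    have h2 : (0 : ℝ) < (2 : ℝ) ^ k * Vv N ^ p := mul_pos (by positivity) (pow_pos (Vpos N) _)
    have h3 : (1 / 2 : ℝ) ^ k * (1 / Vv N ^ p) = 1 / ((2 : ℝ) ^ k * Vv N ^ p) := by
      rw [one_div_pow, one_div_mul_one_div]
    rw [h3]
    exact one_div_le_one_div_of_le h2 h1
  have hg : Summable fun k : ℕ => (1 / 2 : ℝ) ^ k * (1 / Vv N ^ p) :=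
    (summable_geometric_of_lt_one (by norm_num) (by norm_num)).mul_right _
  have hs : Summable fun k : ℕ => 1 / Vv (k + N) ^ p :=
    Summable.of_nonneg_of_le (fun k => by have := Vpos (k + N); positivity) hle hg
  refine ⟨hs, ?_⟩
  calc ∑' k : ℕ, 1 / Vv (k + N) ^ p ≤ ∑' k : ℕ, (1 / 2 : ℝ) ^ k * (1 / Vv N ^ p) :=
        Summable.tsum_le_tsum hle hs hg
    _ = 2 * (1 / Vv N ^ p) := by
        rw [tsum_mul_right, tsum_geometric_of_lt_one (by norm_num) (by norm_num)]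
        norm_num
    _ = 2 / Vv N ^ p := by ring

private theorem sum_B (n : ℕ) : ∑ j ∈ Finset.range n, Vv j ^ 19 ≤ Vv n ^ 10 := by
  induction n with
  | zero => simpa using pow_nonneg (Vpos 0).le 10
  | succ n ih =>
    rw [Finset.sum_range_succ, Vv_succ]
    have h1 := two_le_V n
    have h2 : Vv n ^ 10 ≤ Vv n ^ 19 := pow_le_pow_right₀ (one_le_V n) (by norm_num)
    have h3 : 0 ≤ Vv n ^ 19 := pow_nonneg (Vpos n).le _
    calc ∑ j ∈ Finset.range n, Vv j ^ 19 + Vv n ^ 19 ≤ 2 * Vv n ^ 19 := by linarith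
      _ ≤ Vv n * Vv n ^ 19 := mul_le_mul_of_nonneg_right h1 h3
      _ = (Vv n ^ 2) ^ 10 := by ring

private theorem dl_pos (j : ℕ) : 0 < dl j := by
  have := Vpos j
  unfold dl; positivity

private theorem LL_pos (j : ℕ) : 0 < LL j := by
  have := Vpos j
  unfold LL; positivity

private theorem dl_LL (j : ℕ) : dl j * LL j = Vv j ^ 19 := by
  have := Vpos j
  unfold dl LL
  field_simp

private theorem MM_pos (m : ℝ) (W : Fin 2 → ℝ) (hm : 0 < m) : 0 < MM m W := by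
  unfold MM; positivity

private theorem sq_le_MM (m : ℝ) (W : Fin 2 → ℝ) (hm : 0 < m) (i : Fin 2) :
    W i ^ 2 ≤ MM m W := by
  unfold MM
  have h0 := sq_nonneg (W 0)
  have h1 := sq_nonneg (W 1)
  fin_cases i
  · simp only [Fin.zero_eta]; linarith
  · simp only [Fin.mk_one]; linarith

/-- old fields -/
private theorem dr_old (n : ℕ) (m : ℝ) (W : Fin 2 → ℝ) (hm : 0 < m)
    (hQ : Vv n ^ 18 / 2 ≤ |W (par (n + 1))|) (j : ℕ) (hj : j < n) :
    |dr j m W| ≤ 4 / Vv n ^ 18 * Vv j ^ 19 := by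
  have hV := Vpos n
  have hV2 := two_le_V n
  have hM := MM_pos m W hm
  set R := Real.sqrt (MM m W) with hR
  have hR2 : R ^ 2 = MM m W := Real.sq_sqrt hM.le
  have hRpos : 0 < R := Real.sqrt_pos.mpr hM
  have hWR : ∀ i, |W i| ≤ R := fun i => Real.abs_le_sqrt (sq_le_MM m W hm i)
  have hVR : Vv n ^ 18 / 2 ≤ R := le_trans hQ (hWR _)
  have hs : Vv j ^ 16 ≤ R := by
    have h1 : Vv j ^ 16 ≤ Vv n ^ 8 := by
      calc Vv j ^ 16 = (Vv j ^ 2) ^ 8 := by ring
        _ ≤ Vv n ^ 8 := pow_le_pow_left₀ (sq_nonneg _) (V_sq_le hj) _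
    have h2 : Vv n ^ 8 ≤ Vv n ^ 18 / 2 := by
      have h3 : Vv n ^ 8 * 2 ≤ Vv n ^ 8 * Vv n ^ 10 := by
        refine mul_le_mul_of_nonneg_left ?_ (by positivity)
        calc (2:ℝ) ≤ Vv n := hV2
          _ ≤ Vv n ^ 10 := le_self_pow₀ (one_le_V n) (by norm_num)
      have h4 : Vv n ^ 8 * Vv n ^ 10 = Vv n ^ 18 := by ring
      linarith
    linarith
  have hy : |SS j - W (par j)| ≤ 2 * R := by
    calc |SS j - W (par j)| ≤ |SS j| + |W (par j)| := abs_sub _ _
      _ ≤ R + R := add_le_add (by rw [abs_SS]; exact hs) (hWR _)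
      _ = 2 * R := by ring
  have hL := LL_pos j
  have hd := dl_pos j
  have hfrac : LL j / (LL j + MM m W) ≤ LL j / R ^ 2 := by
    rw [hR2]
    exact div_le_div_of_nonneg_left hL.le hM (by linarith)
  have habs : |dr j m W| = dl j * (LL j / (LL j + MM m W)) * |SS j - W (par j)| := by
    unfold dr
    rw [abs_mul, abs_mul, abs_of_pos hd, abs_of_pos (div_pos hL (by linarith))]
  have hB : 0 ≤ Vv j ^ 19 := pow_nonneg (Vpos j).le _
  calc |dr j m W| = dl j * (LL j / (LL j + MM m W)) * |SS j - W (par j)| := habs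
    _ ≤ dl j * (LL j / R ^ 2) * (2 * R) := by
        refine mul_le_mul (mul_le_mul_of_nonneg_left hfrac hd.le) hy (abs_nonneg _) ?_
        positivity
    _ = (dl j * LL j) * (2 / R) := by field_simp
    _ = Vv j ^ 19 * (2 / R) := by rw [dl_LL]
    _ ≤ Vv j ^ 19 * (2 / (Vv n ^ 18 / 2)) := by
        refine mul_le_mul_of_nonneg_left ?_ hB
        exact div_le_div_of_nonneg_left (by norm_num) (by positivity) hVR
    _ = 4 / Vv n ^ 18 * Vv j ^ 19 := by field_simp; norm_num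

/-- new fields -/
private theorem dr_new (j : ℕ) (m : ℝ) (W : Fin 2 → ℝ) (hm : 0 < m)
    (hW : |W (par j)| ≤ Vv j ^ 16) : |dr j m W| ≤ 2 * (1 / Vv j ^ 1) := by
  have hV := Vpos j
  have hM := MM_pos m W hm
  have hL := LL_pos j
  have hd := dl_pos j
  have hy : |SS j - W (par j)| ≤ 2 * Vv j ^ 16 := by
    calc |SS j - W (par j)| ≤ |SS j| + |W (par j)| := abs_sub _ _
      _ ≤ Vv j ^ 16 + Vv j ^ 16 := add_le_add (by rw [abs_SS]) hW
      _ = 2 * Vv j ^ 16 := by ring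
  have hfrac : LL j / (LL j + MM m W) ≤ 1 := by
    rw [div_le_one (by linarith)]; linarith
  have habs : |dr j m W| = dl j * (LL j / (LL j + MM m W)) * |SS j - W (par j)| := by
    unfold dr
    rw [abs_mul, abs_mul, abs_of_pos hd, abs_of_pos (div_pos hL (by linarith))]
  calc |dr j m W| = dl j * (LL j / (LL j + MM m W)) * |SS j - W (par j)| := habs
    _ ≤ dl j * 1 * (2 * Vv j ^ 16) := by
        refine mul_le_mul (mul_le_mul_of_nonneg_left hfrac hd.le) hy (abs_nonneg _) ?_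
        positivity
    _ = 2 * (1 / Vv j ^ 1) := by unfold dl; field_simp

private theorem W_le_new (n j : ℕ) (hj : n + 3 ≤ j) (x : ℝ) (hx : x ≤ Vv n ^ 37) :
    x ≤ Vv j ^ 16 := by
  have h1 := one_le_V n
  calc x ≤ Vv n ^ 37 := hx
    _ ≤ Vv n ^ 128 := pow_le_pow_right₀ h1 (by norm_num)
    _ = (Vv (n + 3)) ^ 16 := by rw [V_add]; norm_num [← pow_mul]
    _ ≤ Vv j ^ 16 := pow_le_pow_left₀ (Vpos _).le (V_mono hj) _

theorem others_drift (n : ℕ) (m : ℝ) (W : Fin 2 → ℝ) (hm : 0 < m)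
    (hQ : Vv n ^ 18 / 2 ≤ |W (par (n + 1))|) (hW : ∀ i, |W i| ≤ Vv n ^ 37) :
    (∀ i, Summable fun j : ℕ => (if par j = i then dr j m W else 0)) ∧
    |(∑' j : ℕ, (if par j = par n then dr j m W else 0)) - dr n m W - dr (n + 2) m W|
      ≤ 8 / Vv n ^ 8 ∧
    |(∑' j : ℕ, (if par j = par (n + 1) then dr j m W else 0)) - dr (n + 1) m W|
      ≤ 8 / Vv n ^ 8 := by
  have hV := Vpos n
  obtain ⟨hts, htl⟩ := tail_sum (n + 3) 1 le_rfl
  have hV3 : Vv (n + 3) ^ 1 = Vv n ^ 8 := by rw [V_add, pow_one]; norm_num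
  -- bound of the shifted terms
  have hnew : ∀ (i : Fin 2) (k : ℕ),
      ‖(if par (k + (n + 3)) = i then dr (k + (n + 3)) m W else 0)‖
        ≤ 2 * (1 / Vv (k + (n + 3)) ^ 1) := by
    intro i k
    have hb := dr_new (k + (n + 3)) m W hm (W_le_new n _ (by omega) _ (hW _))
    rw [Real.norm_eq_abs]
    split_ifs
    · exact hb
    · rw [abs_zero]; exact le_trans (abs_nonneg _) hb
  have hsh : ∀ i : Fin 2, Summable fun k : ℕ =>
      (if par (k + (n + 3)) = i then dr (k + (n + 3)) m W else 0) := fun i =>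
    Summable.of_norm_bounded (hts.mul_left 2) (hnew i)
  have hsum : ∀ i : Fin 2, Summable fun j : ℕ => (if par j = i then dr j m W else 0) := fun i =>
    (summable_nat_add_iff (n + 3)).mp (hsh i)
  have htail : ∀ i : Fin 2, |∑' k : ℕ,
      (if par (k + (n + 3)) = i then dr (k + (n + 3)) m W else 0)| ≤ 4 / Vv n ^ 8 := by
    intro i
    rw [← Real.norm_eq_abs]
    calc ‖∑' k : ℕ, (if par (k + (n + 3)) = i then dr (k + (n + 3)) m W else 0)‖
        ≤ ∑' k : ℕ, 2 * (1 / Vv (k + (n + 3)) ^ 1) :=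
          tsum_of_norm_bounded (hts.mul_left 2).hasSum (hnew i)
      _ = 2 * ∑' k : ℕ, (1 / Vv (k + (n + 3)) ^ 1) := tsum_mul_left
      _ ≤ 2 * (2 / Vv (n + 3) ^ 1) := by linarith
      _ = 4 / Vv n ^ 8 := by rw [hV3]; ring
  have hold : ∀ i : Fin 2,
      |∑ j ∈ Finset.range n, (if par j = i then dr j m W else 0)| ≤ 4 / Vv n ^ 8 := by
    intro i
    calc |∑ j ∈ Finset.range n, (if par j = i then dr j m W else 0)|
        ≤ ∑ j ∈ Finset.range n, |(if par j = i then dr j m W else 0)| :=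
          Finset.abs_sum_le_sum_abs _ _
      _ ≤ ∑ j ∈ Finset.range n, 4 / Vv n ^ 18 * Vv j ^ 19 := by
          refine Finset.sum_le_sum fun j hj => ?_
          have hb := dr_old n m W hm hQ j (Finset.mem_range.mp hj)
          split_ifs
          · exact hb
          · rw [abs_zero]; exact le_trans (abs_nonneg _) hb
      _ = 4 / Vv n ^ 18 * ∑ j ∈ Finset.range n, Vv j ^ 19 := by rw [Finset.mul_sum]
      _ ≤ 4 / Vv n ^ 18 * Vv n ^ 10 := mul_le_mul_of_nonneg_left (sum_B n) (by positivity)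
      _ = 4 / Vv n ^ 8 := by field_simp
  have hsplit : ∀ i : Fin 2, ∑' j : ℕ, (if par j = i then dr j m W else 0)
      = (∑ j ∈ Finset.range n, (if par j = i then dr j m W else 0))
        + (if par n = i then dr n m W else 0)
        + (if par (n + 1) = i then dr (n + 1) m W else 0)
        + (if par (n + 2) = i then dr (n + 2) m W else 0)
        + ∑' k : ℕ, (if par (k + (n + 3)) = i then dr (k + (n + 3)) m W else 0) := by
    intro i
    rw [← (hsum i).sum_add_tsum_nat_add (n + 3), Finset.sum_range_succ, Finset.sum_range_succ,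
      Finset.sum_range_succ]
  have e8 : 8 / Vv n ^ 8 = 4 / Vv n ^ 8 + 4 / Vv n ^ 8 := by ring
  refine ⟨hsum, ?_, ?_⟩
  · rw [hsplit (par n), if_pos rfl, if_neg (par_succ_ne n), if_pos (par_add_two n), e8]
    have h1 := abs_le.mp (htail (par n))
    have h2 := abs_le.mp (hold (par n))
    rw [abs_le]
    constructor <;> linarith [h1.1, h1.2, h2.1, h2.2]
  · rw [hsplit (par (n + 1)), if_neg (par_succ_ne n).symm, if_pos rfl,
      if_neg (by rw [par_add_two]; exact (par_succ_ne n).symm), e8]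
    have h1 := abs_le.mp (htail (par (n + 1)))
    have h2 := abs_le.mp (hold (par (n + 1)))
    rw [abs_le]
    constructor <;> linarith [h1.1, h1.2, h2.1, h2.2]

private theorem en_nonneg (j : ℕ) (m : ℝ) (W : Fin 2 → ℝ) : 0 ≤ en j m W := by
  unfold en
  have h1 := dl_pos j
  have h2 := LL_pos j
  positivity

private theorem en_old (n : ℕ) (m : ℝ) (W : Fin 2 → ℝ) (hm : 0 < m)
    (hQ : Vv n ^ 18 / 2 ≤ |W (par (n + 1))|) (j : ℕ) (hj : j < n) :
    en j m W ≤ 8 / W (par (n + 1)) ^ 2 * Vv j ^ 19 := by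
  have hV := Vpos n
  have hV2 := two_le_V n
  have hM := MM_pos m W hm
  have hL := LL_pos j
  have hd := dl_pos j
  have hWq : (Vv n ^ 18 / 2) ^ 2 ≤ W (par (n + 1)) ^ 2 := by
    rw [← sq_abs (W (par (n + 1)))]
    exact pow_le_pow_left₀ (by positivity) hQ 2
  have hWpos : 0 < W (par (n + 1)) ^ 2 := lt_of_lt_of_le (by positivity) hWq
  have hWM := sq_le_MM m W hm (par (n + 1))
  have hs : (Vv j ^ 16) ^ 2 ≤ MM m W := by
    have h1 : (Vv j ^ 16) ^ 2 ≤ Vv n ^ 16 := by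
      calc (Vv j ^ 16) ^ 2 = (Vv j ^ 2) ^ 16 := by ring
        _ ≤ Vv n ^ 16 := pow_le_pow_left₀ (sq_nonneg _) (V_sq_le hj) _
    have h2 : Vv n ^ 16 ≤ (Vv n ^ 18 / 2) ^ 2 := by
      have h3 : Vv n ^ 16 * 4 ≤ Vv n ^ 16 * Vv n ^ 20 := by
        refine mul_le_mul_of_nonneg_left ?_ (by positivity)
        calc (4:ℝ) ≤ Vv n ^ 2 := by nlinarith
          _ ≤ Vv n ^ 20 := pow_le_pow_right₀ (one_le_V n) (by norm_num)
      have h4 : (Vv n ^ 18 / 2) ^ 2 = Vv n ^ 16 * Vv n ^ 20 / 4 := by ring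
      rw [h4]; linarith
    linarith
  have hSS : SS j ^ 2 = (Vv j ^ 16) ^ 2 := by rw [← sq_abs, abs_SS]
  have hy : (W (par j) - SS j) ^ 2 ≤ 4 * MM m W := by
    have h1 := sq_le_MM m W hm (par j)
    nlinarith [sq_nonneg (W (par j) + SS j)]
  have hden : MM m W ^ 2 ≤ (LL j + MM m W) ^ 2 :=
    pow_le_pow_left₀ hM.le (by linarith) 2
  have hB : 0 ≤ Vv j ^ 19 := pow_nonneg (Vpos j).le _
  calc en j m W = 2 * dl j * LL j * (W (par j) - SS j) ^ 2 / (LL j + MM m W) ^ 2 := rfl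
    _ ≤ 2 * dl j * LL j * (4 * MM m W) / MM m W ^ 2 := by
        refine div_le_div₀ (by positivity) ?_ (by positivity) hden
        exact mul_le_mul_of_nonneg_left hy (by positivity)
    _ = (dl j * LL j) * (8 / MM m W) := by field_simp; ring
    _ = Vv j ^ 19 * (8 / MM m W) := by rw [dl_LL]
    _ ≤ Vv j ^ 19 * (8 / W (par (n + 1)) ^ 2) := by
        refine mul_le_mul_of_nonneg_left ?_ hB
        exact div_le_div_of_nonneg_left (by norm_num) hWpos hWM
    _ = 8 / W (par (n + 1)) ^ 2 * Vv j ^ 19 := by ring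

private theorem en_new (j : ℕ) (m : ℝ) (W : Fin 2 → ℝ) (hm : 0 < m)
    (hW : |W (par j)| ≤ 2 * Vv j ^ 16) : en j m W ≤ 18 * (1 / Vv j ^ 21) := by
  have hV := Vpos j
  have hM := MM_pos m W hm
  have hL := LL_pos j
  have hd := dl_pos j
  have hy : |W (par j) - SS j| ≤ 3 * Vv j ^ 16 := by
    calc |W (par j) - SS j| ≤ |W (par j)| + |SS j| := abs_sub _ _
      _ ≤ 2 * Vv j ^ 16 + Vv j ^ 16 := add_le_add hW (by rw [abs_SS])
      _ = 3 * Vv j ^ 16 := by ring
  have hy2 : (W (par j) - SS j) ^ 2 ≤ (3 * Vv j ^ 16) ^ 2 := by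
    rw [← sq_abs]
    exact pow_le_pow_left₀ (abs_nonneg _) hy 2
  have hden : LL j ^ 2 ≤ (LL j + MM m W) ^ 2 :=
    pow_le_pow_left₀ hL.le (by linarith) 2
  calc en j m W = 2 * dl j * LL j * (W (par j) - SS j) ^ 2 / (LL j + MM m W) ^ 2 := rfl
    _ ≤ 2 * dl j * LL j * (3 * Vv j ^ 16) ^ 2 / LL j ^ 2 := by
        refine div_le_div₀ (by positivity) ?_ (by positivity) hden
        exact mul_le_mul_of_nonneg_left hy2 (by positivity)
    _ = 18 * (1 / Vv j ^ 21) := by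
        unfold dl LL
        field_simp
        ring

theorem others_energy (n : ℕ) (m : ℝ) (W : Fin 2 → ℝ) (hm : 0 < m)
    (hQ : Vv n ^ 18 / 2 ≤ |W (par (n + 1))|) (hQ' : |W (par (n + 1))| ≤ 3 / 2 * Vv n ^ 32)
    (hP : |W (par n)| ≤ Vv n ^ 37) :
    (Summable fun j : ℕ => en j m W) ∧
    ∑' j : ℕ, en j m W ≤ en n m W + 36 / Vv n ^ 42 + 8 * Vv n ^ 10 / W (par (n + 1)) ^ 2 := by
  have hV := Vpos n
  have hV1 := one_le_V n
  obtain ⟨hts, htl⟩ := tail_sum (n + 1) 21 (by norm_num)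
  have hV3 : Vv (n + 1) ^ 21 = Vv n ^ 42 := by rw [Vv_succ]; ring
  have hWj : ∀ k : ℕ, |W (par (k + (n + 1)))| ≤ 2 * Vv (k + (n + 1)) ^ 16 := by
    intro k
    have hmono : Vv (n + 1) ^ 16 ≤ Vv (k + (n + 1)) ^ 16 :=
      pow_le_pow_left₀ (Vpos _).le (V_mono (by omega)) _
    have e1 : Vv (n + 1) ^ 16 = Vv n ^ 32 := by rw [Vv_succ]; ring
    have hnn : 0 ≤ Vv n ^ 32 := by positivity
    rcases par_cases n (par (k + (n + 1))) with h | h
    · rw [h]
      -- then k ≥ 1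
      have hk : 1 ≤ k := by
        rcases Nat.eq_zero_or_pos k with h0 | h0
        · subst h0
          rw [zero_add] at h
          exact absurd h (par_succ_ne n)
        · exact h0
      have hmono2 : Vv (n + 2) ^ 16 ≤ Vv (k + (n + 1)) ^ 16 :=
        pow_le_pow_left₀ (Vpos _).le (V_mono (by omega)) _
      have e2 : Vv (n + 2) ^ 16 = Vv n ^ 64 := by rw [V_add]; norm_num [← pow_mul]
      have h3 : Vv n ^ 37 ≤ Vv n ^ 64 := pow_le_pow_right₀ hV1 (by norm_num)
      have h4 : 0 ≤ Vv n ^ 64 := by positivity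
      linarith
    · rw [h]
      linarith
  have hnew : ∀ k : ℕ, en (k + (n + 1)) m W ≤ 18 * (1 / Vv (k + (n + 1)) ^ 21) := fun k =>
    en_new _ m W hm (hWj k)
  have hsh : Summable fun k : ℕ => en (k + (n + 1)) m W :=
    Summable.of_nonneg_of_le (fun k => en_nonneg _ _ _) hnew (hts.mul_left 18)
  have hsum : Summable fun j : ℕ => en j m W := (summable_nat_add_iff (n + 1)).mp hsh
  refine ⟨hsum, ?_⟩
  have htail : ∑' k : ℕ, en (k + (n + 1)) m W ≤ 36 / Vv n ^ 42 := by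
    calc ∑' k : ℕ, en (k + (n + 1)) m W ≤ ∑' k : ℕ, 18 * (1 / Vv (k + (n + 1)) ^ 21) :=
          Summable.tsum_le_tsum hnew hsh (hts.mul_left 18)
      _ = 18 * ∑' k : ℕ, (1 / Vv (k + (n + 1)) ^ 21) := tsum_mul_left
      _ ≤ 18 * (2 / Vv (n + 1) ^ 21) := by linarith
      _ = 36 / Vv n ^ 42 := by rw [hV3]; ring
  have hold : ∑ j ∈ Finset.range n, en j m W ≤ 8 * Vv n ^ 10 / W (par (n + 1)) ^ 2 := by
    calc ∑ j ∈ Finset.range n, en j m W
        ≤ ∑ j ∈ Finset.range n, 8 / W (par (n + 1)) ^ 2 * Vv j ^ 19 :=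
          Finset.sum_le_sum fun j hj => en_old n m W hm hQ j (Finset.mem_range.mp hj)
      _ = 8 / W (par (n + 1)) ^ 2 * ∑ j ∈ Finset.range n, Vv j ^ 19 := by rw [Finset.mul_sum]
      _ ≤ 8 / W (par (n + 1)) ^ 2 * Vv n ^ 10 :=
          mul_le_mul_of_nonneg_left (sum_B n) (by positivity)
      _ = 8 * Vv n ^ 10 / W (par (n + 1)) ^ 2 := by ring
  rw [← hsum.sum_add_tsum_nat_add (n + 1), Finset.sum_range_succ]
  linarith

end Pool.Agent.DW
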